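import Pool.Agent.Helper75.GR.Stmts

open Finset MeasureTheory Filter Topology Matrix
open scoped ENNReal ContDiff

namespace Pool.Agent.Helper75.GR

open Pool.Agent.Helper44.GF Pool.Agent.Helper44.GN Pool.Agent.Helper44.GH

theorem vy_nonneg {n : ℕ} {Y : Type} [Fintype Y] [DecidableEq Y] (δ : ℝ) (r z : Y → ℝ)
    (hz : ∀ y, 0 < z y) (F : Finset (Fin n × Y) → ℝ) (y : Fin n → ℝ) : 0 ≤ vy δ r z F y := by
  classical
  set w : Finset (Fin n × Y) → ℝ := fun η => zw z η * Real.exp (-∑ i, tau δ r η i * y i ^ 2)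
    with hw
  have hw0 : ∀ η, 0 < w η := fun η =>
    mul_pos (Finset.prod_pos fun x _ => hz x.2) (Real.exp_pos _)
  have hZ : ∀ G : Finset (Fin n × Y) → ℝ, Zy δ r z G y = ∑ η, w η * G η := fun G => rfl
  have hZ1 : 0 < Zy δ r z (fun _ => (1 : ℝ)) y := by
    rw [hZ]
    exact Finset.sum_pos (fun η _ => by simpa using hw0 η) ⟨∅, Finset.mem_univ _⟩
  set Z1 := Zy δ r z (fun _ => (1 : ℝ)) y with hZ1d
  set μ : ℝ := EY δ r z F y with hμ
  have hμ' : μ = Zy δ r z F y / Z1 := rfl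
  have e1 : vy δ r z F y = (∑ η, w η * (F η - μ) ^ 2) / Z1 := by
    have h2 : vy δ r z F y = Zy δ r z (fun η => F η ^ 2) y / Z1 - μ ^ 2 := rfl
    have h3 : (∑ η, w η * (F η - μ) ^ 2)
        = Zy δ r z (fun η => F η ^ 2) y - 2 * μ * Zy δ r z F y + μ ^ 2 * Z1 := by
      rw [hZ1d, hZ, hZ, hZ, Finset.mul_sum, Finset.mul_sum, ← Finset.sum_sub_distrib,
        ← Finset.sum_add_distrib]
      refine Finset.sum_congr rfl fun η _ => ?_
      ring
    have h4 : Zy δ r z F y = μ * Z1 := by rw [hμ']; field_simp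
    rw [h2, h3, h4]
    field_simp
    ring
  rw [e1]
  exact div_nonneg (Finset.sum_nonneg fun η _ => mul_nonneg (hw0 η).le (sq_nonneg _)) hZ1.le

theorem st_BES (hG : ST_GPO) (hE : ST_ES) : ST_BES := by
  intro n Y _ _ s ζ δ r z hM F y
  have hv : 0 ≤ vy δ r z F y := vy_nonneg δ r z hM.z0 F y
  refine ⟨hv, ?_⟩
  obtain ⟨-, -, hD, ht, -, -, -⟩ := hG Y s ζ δ r z hM
  have hδ := hM.d0
  have hDp : ∀ t, 0 < Dg δ r z t := fun t => lt_of_lt_of_le (by positivity) (hD t)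
  have hE2 := (hE n Y δ r z hM.d0 hM.r0 hM.z0 F y).2
    (fun i => 4 * y i ^ 2 * cy δ r z F y i / Dg δ r z (y i))
  set S : ℝ := ∑ i, (-(2 * y i * cy δ r z F y i)) ^ 2 / Dg δ r z (y i) with hS
  have e1 : ∑ i, 4 * y i ^ 2 * cy δ r z F y i / Dg δ r z (y i) * cy δ r z F y i = S := by
    rw [hS]
    refine Finset.sum_congr rfl fun i _ => ?_
    ring
  have hS0 : 0 ≤ S := Finset.sum_nonneg fun i _ => div_nonneg (sq_nonneg _) (hDp _).le
  have e2 : ∑ i, (4 * y i ^ 2 * cy δ r z F y i / Dg δ r z (y i)) ^ 2 * tz r z (y i ^ 2)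
      ≤ S / 1 := by
    rw [hS, Finset.sum_div]
    refine Finset.sum_le_sum fun i _ => ?_
    have h1 := ht (y i)
    have h2 := hDp (y i)
    set D := Dg δ r z (y i)
    set c := cy δ r z F y i
    set T := tz r z (y i ^ 2)
    have e3 : (4 * y i ^ 2 * c / D) ^ 2 * T = (-(2 * y i * c)) ^ 2 / D * (4 * y i ^ 2 * T / D) := by
      field_simp
      ring
    rw [e3]
    have h3 : 4 * y i ^ 2 * T / D ≤ 1 := by
      rw [div_le_iff₀ h2]; exact h1
    calc _ ≤ (-(2 * y i * c)) ^ 2 / D * 1 :=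
          mul_le_mul_of_nonneg_left h3 (div_nonneg (sq_nonneg _) h2.le)
      _ = _ := by ring
  rw [e1] at hE2
  have h5 : S ^ 2 ≤ vy δ r z F y * (S / 1) := hE2.trans (mul_le_mul_of_nonneg_left e2 hv)
  rcases hS0.eq_or_lt with h0 | h0
  · rw [← h0]; positivity
  · have : S * S ≤ S * (1 * vy δ r z F y) := by nlinarith [h5]
    exact le_of_mul_le_mul_left this h0

end Pool.Agent.Helper75.GR
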