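import Pool.Agent.Helper75.GR.Stmts

/-! Module BPV: the projection. -/

open Finset MeasureTheory Filter Topology Matrix
open scoped ENNReal ContDiff

namespace Pool.Agent.Helper75.GR

open Pool.Agent.Helper44.GF Pool.Agent.Helper44.GN Pool.Agent.Helper44.GH

theorem bpv_tau {n : ℕ} {Y : Type} [Fintype Y] [DecidableEq Y] {δ : ℝ} {r : Y → ℝ}
    (hd : 0 < δ) (hr : ∀ y, 0 < r y) (η : Finset (Fin n × Y)) : tau δ r η ∈ Og n := by
  intro i
  unfold tau
  have : 0 ≤ ∑ y, if (i, y) ∈ η then r y else 0 :=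
    Finset.sum_nonneg fun y _ => by
      split_ifs
      · exact (hr y).le
      · exact le_rfl
  linarith

theorem bpv_zw {n : ℕ} {Y : Type} [Fintype Y] [DecidableEq Y] {z : Y → ℝ}
    (hz : ∀ y, 0 < z y) (η : Finset (Fin n × Y)) : 0 < zw z η :=
  Finset.prod_pos fun x _ => hz x.2

theorem bpv_W1 (hC : ST_CNT) {n m : ℕ} {Y : Type} [Fintype Y] [DecidableEq Y] {δ : ℝ}
    {r z : Y → ℝ} {V : Matrix (Fin n) (Fin m) ℝ} (hd : 0 < δ) (hr : ∀ y, 0 < r y)
    (hz : ∀ y, 0 < z y) (hV : Function.Injective V.mulVec) (η : Finset (Fin n × Y)) :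
    0 < W1 V δ r z η :=
  mul_pos (bpv_zw hz η) (Real.rpow_pos_of_pos ((hC n m V V hV).1 _ (bpv_tau hd hr η)) _)

theorem bpv_MS (hC : ST_CNT) {n m : ℕ} {Y : Type} [Fintype Y] [DecidableEq Y] {δ : ℝ}
    {r z : Y → ℝ} {V : Matrix (Fin n) (Fin m) ℝ} (hd : 0 < δ) (hr : ∀ y, 0 < r y)
    (hz : ∀ y, 0 < z y) (hV : Function.Injective V.mulVec) : 0 < MS V δ r z :=
  Finset.sum_pos (fun η _ => bpv_W1 hC hd hr hz hV η) ⟨∅, Finset.mem_univ _⟩

theorem bpv_const {n m : ℕ} {Y : Type} [Fintype Y] [DecidableEq Y] {δ : ℝ}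
    {r z : Y → ℝ} {V : Matrix (Fin n) (Fin m) ℝ} (h : 0 < MS V δ r z) (c : ℝ) :
    EX V δ r z (fun _ => c) = c := by
  unfold EX
  rw [← Finset.sum_mul]
  exact mul_div_cancel_left₀ c h.ne'

theorem bpv_lin {n m : ℕ} {Y : Type} [Fintype Y] [DecidableEq Y] {δ : ℝ}
    {r z : Y → ℝ} {V : Matrix (Fin n) (Fin m) ℝ} {ι : Type} (S : Finset ι)
    (F : ι → (Fin n → ℝ) → ℝ) (c : ι → ℝ) :
    EX V δ r z (fun y => ∑ i ∈ S, F i y * c i) = ∑ i ∈ S, EX V δ r z (F i) * c i := by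
  unfold EX
  simp only [div_mul_eq_mul_div]
  rw [← Finset.sum_div]
  congr 1
  simp only [Finset.mul_sum, Finset.sum_mul]
  rw [Finset.sum_comm]
  refine Finset.sum_congr rfl fun i _ => Finset.sum_congr rfl fun η _ => ?_
  ring

theorem bpv_congr {n m : ℕ} {Y : Type} [Fintype Y] [DecidableEq Y] {δ : ℝ}
    {r z : Y → ℝ} {V : Matrix (Fin n) (Fin m) ℝ} (hd : 0 < δ) (hr : ∀ y, 0 < r y)
    {F G : (Fin n → ℝ) → ℝ} (h : ∀ y ∈ Og n, F y = G y) :
    EX V δ r z F = EX V δ r z G := by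
  unfold EX
  congr 1
  exact Finset.sum_congr rfl fun η _ => by rw [h _ (bpv_tau hd hr η)]

theorem st_BPV (hC : ST_CNT) : ST_BPV := by
  intro n m Y _ _ s ζ δ r z V hM hV
  have hMS := bpv_MS hC hM.d0 hM.r0 hM.z0 hV
  have hBDV : ∀ y ∈ Og n, BD V y * V = 1 := by
    intro y hy
    have h1 := (hC n m V V hV).1 y hy
    have h2 : BD V y * V = (TT V V y)⁻¹ * TT V V y := by
      unfold BD TT
      simp only [Matrix.mul_assoc]
    rw [h2]
    exact Matrix.nonsing_inv_mul _ (isUnit_iff_ne_zero.2 (by unfold qf at h1; exact h1.ne'))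
  have hBB : ∀ (Z : Matrix (Fin n) (Fin m) ℝ) (y : Fin n → ℝ), BB V Z y = BD V y * Z := by
    intro Z y
    unfold BB BD TT
    simp only [Matrix.mul_assoc]
  have hEX : ∀ (Z : Matrix (Fin n) (Fin m) ℝ) (a b : Fin m),
      EX V δ r z (fun y => (BD V y * Z) a b) = (Bp V δ r z * Z) a b := by
    intro Z a b
    have h1 : (fun y => (BD V y * Z) a b) = fun y => ∑ i, BD V y a i * Z i b := by
      funext y
      rw [Matrix.mul_apply]
    rw [h1, bpv_lin, Matrix.mul_apply]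
    rfl
  refine ⟨hMS, ?_, ?_⟩
  · ext a b
    rw [← hEX V a b, bpv_congr hM.d0 hM.r0 (G := fun _ => (1 : Matrix (Fin m) (Fin m) ℝ) a b)
      (fun y hy => by rw [hBDV y hy]), bpv_const hMS]
  · intro Z
    have hE1 : ∀ a b, EX V δ r z (fun y => BB V Z y a b) = (Bp V δ r z * Z) a b := by
      intro a b
      rw [← hEX Z a b]
      congr 1
      funext y
      rw [hBB]
    refine ⟨hE1, ?_, ?_⟩
    · have h1 : EX V δ r z (fun y => Matrix.trace (BB V Z y)) = Matrix.trace (Bp V δ r z * Z) := by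
        have h2 : (fun y => Matrix.trace (BB V Z y)) = fun y => ∑ a, BB V Z y a a * 1 := by
          funext y
          simp [Matrix.trace]
        rw [h2, bpv_lin (δ := δ) (r := r) (z := z) (V := V) Finset.univ
          (fun a y => BB V Z y a a) (fun _ => 1)]
        simp only [hE1, mul_one, Matrix.trace, Matrix.diag_apply]
      rw [← h1]
      unfold M1 EX
      rw [mul_div_cancel₀ _ hMS.ne']
    · unfold M2 EX
      rw [mul_div_cancel₀ _ hMS.ne']

end Pool.Agent.Helper75.GR
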