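import Pool.Agent.Helper75.GR.Stmts
import Pool.Agent.Helper44.GF.MAIN
import Pool.Agent.Helper94.GF.LINK

/-! Module FIS (helper67): the face inequality for the finite model. -/

open Finset MeasureTheory Filter Topology Matrix
open scoped ENNReal ContDiff

namespace Pool.Agent.Helper75.GR

open Pool.Agent.Helper44.GF Pool.Agent.Helper44.GN Pool.Agent.Helper44.GH

theorem fis_tau {n : ℕ} {Y : Type} [Fintype Y] [DecidableEq Y] {δ : ℝ} {r : Y → ℝ}
    (hd : 0 < δ) (hr : ∀ y, 0 < r y) (η : Finset (Fin n × Y)) (i : Fin n) :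
    0 < tau δ r η i := by
  unfold tau
  have : 0 ≤ ∑ y, if (i, y) ∈ η then r y else 0 :=
    Finset.sum_nonneg fun y _ => by
      split_ifs
      · exact (hr y).le
      · exact le_rfl
  linarith

theorem fis_MM (hL : ST_LINK) {n m : ℕ} {Y : Type} [Fintype Y] [DecidableEq Y] {s ζ δ : ℝ}
    {r z : Y → ℝ} (hM : MD s ζ δ r z) :
    ∃ C : ℝ, 0 < C ∧ ∀ V : Matrix (Fin n) (Fin m) ℝ, Function.Injective V.mulVec →
      MM (lam δ r z) V = C * MS V δ r z := by
  obtain ⟨C, hC, hV⟩ := hL n m Y r z δ hM.r0 hM.z0 hM.d0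
  have hf : (0 : ℝ) < (Nat.factorial m : ℝ) := by positivity
  refine ⟨C * (Nat.factorial m : ℝ) ^ (-(1 / 2) : ℝ), mul_pos hC (Real.rpow_pos_of_pos hf _), ?_⟩
  intro V hVi
  rw [hV V hVi, mul_assoc]
  congr 1
  unfold Fq MS
  rw [Finset.mul_sum]
  refine Finset.sum_congr rfl fun η _ => ?_
  have hq := (link_gauss V hVi (tau δ r η) (fis_tau hM.d0 hM.r0 η)).2.1
  rw [link_pol, Real.mul_rpow hf.le hq.le]
  unfold W1 zw qf TT
  ring

theorem st_FIS (hK : ST_KER) (hC : ST_CVB) (hB : ST_BPV) (hL : ST_LINK) : ST_FIS := by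
  intro m n Y _ _ s ζ δ r z hM K F θ hθ hcyc i
  obtain ⟨C, hC0, hMM⟩ := fis_MM hL (n := n) (m := m + 1) hM
  obtain ⟨B, hB1, hB2⟩ := hK n (m + 1) Y s ζ δ r z (F i).mat hM (main_injective (F i))
  have h1 := hC m n K F θ hθ hcyc B i hB1
  have hpos : ∀ j, 0 < MS (F j).mat δ r z := fun j =>
    (hB n (m + 1) Y s ζ δ r z (F j).mat hM (main_injective (F j))).1
  have hMMj : ∀ j, MM (lam δ r z) (F j).mat = C * MS (F j).mat δ r z := fun j =>
    hMM _ (main_injective (F j))
  simp only [hMMj]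
  have hi := hpos i
  calc (volume (F i).dom).toReal / (C * MS (F i).mat δ r z)
      ≤ (∑ j ∈ univ.erase i, |(B * (F j).mat).det| * (volume (F j).dom).toReal)
        / (C * MS (F i).mat δ r z) :=
        div_le_div_of_nonneg_right h1 (mul_pos hC0 hi).le
    _ = ∑ j ∈ univ.erase i, |(B * (F j).mat).det| * (volume (F j).dom).toReal
        / (C * MS (F i).mat δ r z) := by rw [Finset.sum_div]
    _ ≤ _ := by
      refine Finset.sum_le_sum fun j _ => ?_
      have hj := hpos j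
      rw [div_le_div_iff₀ (mul_pos hC0 hi) (mul_pos hC0 hj)]
      have h2 := hB2 (F j).mat
      have h3 : 0 ≤ (volume (F j).dom).toReal * C := mul_nonneg ENNReal.toReal_nonneg hC0.le
      have h4 := mul_le_mul_of_nonneg_left h2 h3
      nlinarith [h4]

end Pool.Agent.Helper75.GR
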