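import Pool.Agent.Helper75.GR.Stmts

/-! Module MAIN: the main theorem. -/

open Finset MeasureTheory Filter Topology Matrix
open scoped ENNReal ContDiff

namespace Pool.Agent.Helper75.GR

open Pool.Agent.Helper44.GF Pool.Agent.Helper44.GN Pool.Agent.Helper44.GH

theorem st_MAIN (hH : Pool.Agent.Helper44.GF.ST_HFACE) (hF : ST_FST) : ST_MAIN := by
  intro m n K p hp1 hp2 hfact F θ hθ hcyc i
  obtain ⟨C, hC0, hface⟩ := hH (m + 1) n p (by omega) (by linarith)
  have hcast : ((m + 1 : ℕ) : ℝ) = (m : ℝ) + 1 := by push_cast; ring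
  rw [hcast] at hface
  have hFI := hF m n p hp1 hp2
  have h7 := hFI K F θ hθ hcyc i
  set Λ : ℝ → ℝ := fun u => u ^ (p / 2) with hΛ
  set vol : Fin K → ℝ := fun j => (volume (F j).dom).toReal with hvol
  have hvol0 : ∀ j, 0 ≤ vol j := fun j => ENNReal.toReal_nonneg
  have h8 : ∀ j, μH[(m : ℝ) + 1] ((F j).carrier (ENNReal.ofReal p))
      = ENNReal.ofReal (C / MM Λ (F j).mat * vol j) := fun j => (hface (F j)).2
  simp only [h8]
  rw [← ENNReal.ofReal_sum_of_nonneg]
  · apply ENNReal.ofReal_le_ofReal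
    have e1 : ∀ j, C / MM Λ (F j).mat * vol j = C * (vol j / MM Λ (F j).mat) := by
      intro j; ring
    simp only [e1]
    rw [← Finset.mul_sum]
    exact mul_le_mul_of_nonneg_left h7 hC0.le
  · intro j _
    have hMj0 : 0 < MM Λ (F j).mat := (hface (F j)).1
    have := hvol0 j
    positivity

end Pool.Agent.Helper75.GR
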