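import Pool.Agent.Helper75.GR.Stmts

open Finset MeasureTheory Filter Topology Matrix
open scoped ENNReal ContDiff

namespace Pool.Agent.Helper75.GR

open Pool.Agent.Helper44.GF Pool.Agent.Helper44.GN Pool.Agent.Helper44.GH

theorem st_MCV (hF : ST_FDP) (hI : ST_MDI) (hO : ST_MOD) : ST_MCV := by
  intro n m Y _ _ s ζ δ r z V hM hV i hi
  obtain ⟨f0, fc, p0, pc, pz, fd1, ⟨p', hp'⟩, -⟩ := hF n m Y s ζ δ r z V hM hV i hi
  refine ⟨f0, fun t u ht htu => ?_⟩
  exact hO (fd V δ r z i) (p3 V δ r z i) (fun t _ => f0 t) fc.continuousOn pc.continuousOn pz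
    (fun t _ => p0 t) fd1 ⟨p', fun t _ => hp' t⟩ (hI n m Y s ζ δ r z V hM hV i hi) t u ht htu

end Pool.Agent.Helper75.GR
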