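import Pool.Agent.Helper75.GR.Stmts

open Finset MeasureTheory Filter Topology Matrix
open scoped ENNReal ContDiff

namespace Pool.Agent.Helper75.GR

open Pool.Agent.Helper44.GF Pool.Agent.Helper44.GN Pool.Agent.Helper44.GH

section MKaux

variable {n m : ℕ} {Y : Type} [Fintype Y] [DecidableEq Y]

theorem mk_tau {δ : ℝ} {r : Y → ℝ} (hδ : 0 < δ) (hr : ∀ y, 0 < r y)
    (η : Finset (Fin n × Y)) : tau δ r η ∈ Og n := by
  intro x
  unfold tau
  have : 0 ≤ ∑ y, if (x, y) ∈ η then r y else 0 :=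
    Finset.sum_nonneg fun y _ => by split_ifs; exacts [(hr y).le, le_refl _]
  linarith

theorem st_MK (hU : ST_UPD) (h1 : ST_GL1) : ST_MK := by
  intro n m Y _ _ s ζ δ r z V hM hV i hi c hc φ hφ
  have hq : ∀ η : Finset (Fin n × Y), 0 < qf V (tau δ r η) := fun η =>
    (hU n m V V hV _ (mk_tau hM.d0 hM.r0 η) i 0 le_rfl).2.1
  have hh0 : ∀ η : Finset (Fin n × Y), 0 < hh V (tau δ r η) i := by
    intro η
    obtain ⟨-, -, a1, a2, -⟩ := hU n m V V hV _ (mk_tau hM.d0 hM.r0 η) i 0 le_rfl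
    exact lt_of_le_of_ne a1 fun h => hi (a2 h.symm)
  have hz : ∀ η : Finset (Fin n × Y), 0 < zw z η := fun η =>
    Finset.prod_pos fun x _ => hM.z0 x.2
  have hG : 0 ≤ G0 m := integral_nonneg fun x => (Real.exp_pos _).le
  have hme : ∀ η : Finset (Fin n × Y), Measurable (fun x : Fin m → ℝ => φ |V.mulVec x i|
      * ENNReal.ofReal (Real.exp (-∑ j, tau δ r η j * (V.mulVec x j) ^ 2))) := by
    intro η
    have c0 : ∀ j, Continuous fun x : Fin m → ℝ => V.mulVec x j := by
      intro j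
      unfold Matrix.mulVec dotProduct
      fun_prop
    refine Measurable.mul (hφ.comp ((c0 i).abs.measurable)) ?_
    refine ENNReal.measurable_ofReal.comp ?_
    refine Continuous.measurable ?_
    refine Real.continuous_exp.comp ?_
    refine Continuous.neg ?_
    exact continuous_finsetSum _ fun j _ => continuous_const.mul ((c0 j).pow 2)
  have hmr : ∀ η : Finset (Fin n × Y), Measurable (fun t : ℝ => φ t
      * ENNReal.ofReal (2 / √Real.pi * (hh V (tau δ r η) i) ^ (-(1 / 2) : ℝ)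
        * Real.exp (-(t ^ 2 / hh V (tau δ r η) i)))) := by
    intro η
    refine hφ.mul (ENNReal.measurable_ofReal.comp (Continuous.measurable ?_))
    fun_prop
  -- the left side
  have l1 : ∫⁻ x : Fin m → ℝ, φ |V.mulVec x i| * ENNReal.ofReal (Zy δ r z c (V.mulVec x))
      = ∑ η : Finset (Fin n × Y), ENNReal.ofReal (zw z η * c η)
        * ∫⁻ x : Fin m → ℝ, φ |V.mulVec x i|
          * ENNReal.ofReal (Real.exp (-∑ j, tau δ r η j * (V.mulVec x j) ^ 2)) := by
    have : ∀ x : Fin m → ℝ, φ |V.mulVec x i| * ENNReal.ofReal (Zy δ r z c (V.mulVec x))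
        = ∑ η : Finset (Fin n × Y), ENNReal.ofReal (zw z η * c η) * (φ |V.mulVec x i|
          * ENNReal.ofReal (Real.exp (-∑ j, tau δ r η j * (V.mulVec x j) ^ 2))) := by
      intro x
      unfold Zy
      rw [ENNReal.ofReal_sum_of_nonneg, Finset.mul_sum]
      · refine Finset.sum_congr rfl fun η _ => ?_
        have e : zw z η * Real.exp (-∑ j, tau δ r η j * (V.mulVec x j) ^ 2) * c η
            = (zw z η * c η) * Real.exp (-∑ j, tau δ r η j * (V.mulVec x j) ^ 2) := by ring
        rw [e, ENNReal.ofReal_mul (mul_nonneg (hz η).le (hc η))]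
        ring
      · intro η _
        exact mul_nonneg (mul_nonneg (hz η).le (Real.exp_pos _).le) (hc η)
    simp_rw [this]
    rw [lintegral_finsetSum]
    · refine Finset.sum_congr rfl fun η _ => ?_
      rw [lintegral_const_mul _ (hme η)]
    · intro η _
      exact (hme η).const_mul _
  -- the right side
  have l2 : ∀ t : ℝ, ENNReal.ofReal (2 * G0 m) * (φ t
        * ENNReal.ofReal (∑ η : Finset (Fin n × Y), W1 V δ r z η
            * (1 / √Real.pi * (hh V (tau δ r η) i) ^ (-(1 / 2) : ℝ)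
              * Real.exp (-(t ^ 2 / hh V (tau δ r η) i))) * c η))
      = ∑ η : Finset (Fin n × Y), ENNReal.ofReal (zw z η * c η)
        * (ENNReal.ofReal (G0 m * (qf V (tau δ r η)) ^ (-(1 / 2) : ℝ))
        * (φ t * ENNReal.ofReal (2 / √Real.pi * (hh V (tau δ r η) i) ^ (-(1 / 2) : ℝ)
        * Real.exp (-(t ^ 2 / hh V (tau δ r η) i))))) := by
    intro t
    have a1 : ENNReal.ofReal (2 * G0 m) * (φ t
        * ENNReal.ofReal (∑ η : Finset (Fin n × Y), W1 V δ r z η
            * (1 / √Real.pi * (hh V (tau δ r η) i) ^ (-(1 / 2) : ℝ)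
              * Real.exp (-(t ^ 2 / hh V (tau δ r η) i))) * c η))
        = φ t * ENNReal.ofReal (2 * G0 m * ∑ η : Finset (Fin n × Y), W1 V δ r z η
            * (1 / √Real.pi * (hh V (tau δ r η) i) ^ (-(1 / 2) : ℝ)
              * Real.exp (-(t ^ 2 / hh V (tau δ r η) i))) * c η) := by
      rw [ENNReal.ofReal_mul (p := 2 * G0 m) (by positivity)]
      ring
    have a2 : 2 * G0 m * ∑ η : Finset (Fin n × Y), W1 V δ r z η
            * (1 / √Real.pi * (hh V (tau δ r η) i) ^ (-(1 / 2) : ℝ)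
              * Real.exp (-(t ^ 2 / hh V (tau δ r η) i))) * c η
        = ∑ η : Finset (Fin n × Y), (zw z η * c η)
          * ((G0 m * (qf V (tau δ r η)) ^ (-(1 / 2) : ℝ))
          * (2 / √Real.pi * (hh V (tau δ r η) i) ^ (-(1 / 2) : ℝ)
          * Real.exp (-(t ^ 2 / hh V (tau δ r η) i)))) := by
      rw [Finset.mul_sum]
      refine Finset.sum_congr rfl fun η _ => ?_
      unfold W1
      ring
    rw [a1, a2, ENNReal.ofReal_sum_of_nonneg, Finset.mul_sum]
    · refine Finset.sum_congr rfl fun η _ => ?_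
      have b1 := mul_nonneg (hz η).le (hc η)
      have b2 : 0 ≤ G0 m * (qf V (tau δ r η)) ^ (-(1 / 2) : ℝ) :=
        mul_nonneg hG (Real.rpow_pos_of_pos (hq η) _).le
      rw [ENNReal.ofReal_mul b1, ENNReal.ofReal_mul b2]
      ring
    · intro η _
      have b1 := mul_nonneg (hz η).le (hc η)
      have b2 := (Real.rpow_pos_of_pos (hq η) (-(1 / 2) : ℝ)).le
      have b3 := (Real.rpow_pos_of_pos (hh0 η) (-(1 / 2) : ℝ)).le
      positivity
  have l3 : ENNReal.ofReal (2 * G0 m) * ∫⁻ t in Set.Ioi (0 : ℝ), φ t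
          * ENNReal.ofReal (∑ η : Finset (Fin n × Y), W1 V δ r z η
            * (1 / √Real.pi * (hh V (tau δ r η) i) ^ (-(1 / 2) : ℝ)
              * Real.exp (-(t ^ 2 / hh V (tau δ r η) i))) * c η)
      = ∑ η : Finset (Fin n × Y), ENNReal.ofReal (zw z η * c η)
        * (ENNReal.ofReal (G0 m * (qf V (tau δ r η)) ^ (-(1 / 2) : ℝ))
        * ∫⁻ t in Set.Ioi (0 : ℝ), φ t * ENNReal.ofReal (2 / √Real.pi
          * (hh V (tau δ r η) i) ^ (-(1 / 2) : ℝ)
          * Real.exp (-(t ^ 2 / hh V (tau δ r η) i)))) := by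
    rw [← lintegral_const_mul]
    · simp_rw [l2]
      rw [lintegral_finsetSum]
      · refine Finset.sum_congr rfl fun η _ => ?_
        rw [lintegral_const_mul _ ((hmr η).const_mul _), lintegral_const_mul _ (hmr η)]
      · intro η _
        exact ((hmr η).const_mul _).const_mul _
    · refine hφ.mul (ENNReal.measurable_ofReal.comp (Continuous.measurable ?_))
      fun_prop
  rw [l1, l3]
  refine Finset.sum_congr rfl fun η _ => ?_
  rw [h1 n m V hV _ (mk_tau hM.d0 hM.r0 η) i hi φ hφ]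

end MKaux

end Pool.Agent.Helper75.GR
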