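import Pool.Agent.Helper75.GR.Stmts
import Pool.Agent.Helper52.GH.SGF

open Finset MeasureTheory Filter Topology Matrix
open scoped ENNReal ContDiff

namespace Pool.Agent.Helper75.GR

open Pool.Agent.Helper44.GF Pool.Agent.Helper44.GN Pool.Agent.Helper44.GH
open Pool.Agent.Helper44.GH.SGF52

section MQaux

variable {n m : ℕ} {Y : Type} [Fintype Y] [DecidableEq Y]

theorem mq_tau {δ : ℝ} {r : Y → ℝ} (hδ : 0 < δ) (hr : ∀ y, 0 < r y)
    (η : Finset (Fin n × Y)) : tau δ r η ∈ Og n := by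
  intro x
  unfold tau
  have : 0 ≤ ∑ y, if (x, y) ∈ η then r y else 0 :=
    Finset.sum_nonneg fun y _ => by split_ifs; exacts [(hr y).le, le_refl _]
  linarith

theorem mq_MA1 : MA (fun _ : Fin n → ℝ => (1 : ℝ)) := by
  intro y _ i
  exact ⟨0, fun s _ => by ring⟩

theorem mq_MAj (j : Fin n) : MA (fun y : Fin n → ℝ => y j) := by
  intro y _ i
  by_cases h : j = i
  · subst h
    exact ⟨1, fun s _ => by simp⟩
  · refine ⟨0, fun s _ => ?_⟩
    simp [Function.update_of_ne h]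

theorem mq_cs (V : Matrix (Fin n) (Fin m) ℝ) (hV : Function.Injective V.mulVec)
    (y : Fin n → ℝ) (hy : y ∈ Og n) (i : Fin n) (k : Fin m → ℝ) :
    (V.mulVec k i) ^ 2 * (hh V y i)⁻¹ ≤ ∑ j, y j * (V.mulVec k j) ^ 2 := by
  have h := cs V hV y hy (V i) (TT V V y *ᵥ k)
  have hu := det_unit V hV y hy
  have e1 : (TT V V y)⁻¹ *ᵥ (TT V V y *ᵥ k) = k := by
    rw [Matrix.mulVec_mulVec, Matrix.nonsing_inv_mul _ hu, Matrix.one_mulVec]
  have e2 : ((TT V V y)⁻¹ *ᵥ V i) ⬝ᵥ (TT V V y *ᵥ k) = V.mulVec k i := by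
    have h1 := inv_symm V y (TT V V y *ᵥ k) (V i)
    rw [e1] at h1
    rw [dotProduct_comm, h1]
    rfl
  have e3 : (TT V V y *ᵥ k) ⬝ᵥ ((TT V V y)⁻¹ *ᵥ (TT V V y *ᵥ k)) = ∑ j, y j * (V.mulVec k j) ^ 2 := by
    rw [e1, dotProduct_comm, quad_TT]
  rw [e2, e3] at h
  have e4 : V i ⬝ᵥ ((TT V V y)⁻¹ *ᵥ V i) = hh V y i := rfl
  rw [e4, div_eq_mul_inv] at h
  exact h

theorem st_MQ (hPE : ST_PE) (hS : ST_SLV) : ST_MQ := by
  intro n m Y _ _ s ζ δ r z V hM hV i _ x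
  have hp1 : Zy δ r z (fun _ : Finset (Fin n × Y) => 1) (V.mulVec x)
      = (∏ y, (1 + z y)) ^ n * Real.exp (-∑ j, gg δ r z (V.mulVec x j)) := by
    have h := hPE n Y δ r z hM.d0 hM.r0 hM.z0 (fun _ => 1) mq_MA1 (fun j => (V.mulVec x j) ^ 2)
    unfold Zy gg
    rw [h, mul_one]
  refine ⟨hp1, fun k => ?_⟩
  have hK : 0 < (∏ y, (1 + z y)) ^ n :=
    pow_pos (Finset.prod_pos fun y _ => by linarith [hM.z0 y]) n
  have hZ1 : 0 < Zy δ r z (fun _ : Finset (Fin n × Y) => 1) (V.mulVec x) := by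
    rw [hp1]; positivity
  -- the conditional expectation of `tau j`
  have hpj : ∀ j, Zy δ r z (fun η : Finset (Fin n × Y) => tau δ r η j) (V.mulVec x)
      = Zy δ r z (fun _ : Finset (Fin n × Y) => 1) (V.mulVec x)
        * ld δ r z ((V.mulVec x j) ^ 2) := by
    intro j
    have h := hPE n Y δ r z hM.d0 hM.r0 hM.z0 (fun y => y j) (mq_MAj j)
      (fun j => (V.mulVec x j) ^ 2)
    rw [hp1]
    unfold Zy gg
    rw [h]
  -- the sum
  have h1 : (V.mulVec k i) ^ 2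
        * Zy δ r z (fun η : Finset (Fin n × Y) => (hh V (tau δ r η) i)⁻¹) (V.mulVec x)
      ≤ ∑ j, (V.mulVec k j) ^ 2
        * Zy δ r z (fun η : Finset (Fin n × Y) => tau δ r η j) (V.mulVec x) := by
    unfold Zy
    simp_rw [Finset.mul_sum]
    rw [Finset.sum_comm]
    refine Finset.sum_le_sum fun η _ => ?_
    have hτ := mq_tau (n := n) hM.d0 hM.r0 η
    have hc := mq_cs V hV (tau δ r η) hτ i k
    have hw : 0 ≤ zw z η * Real.exp (-∑ i, tau δ r η i * V.mulVec x i ^ 2) :=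
      mul_nonneg (Finset.prod_nonneg fun y _ => (hM.z0 y.2).le) (Real.exp_pos _).le
    calc (V.mulVec k i) ^ 2 * (zw z η * Real.exp (-∑ i, tau δ r η i * V.mulVec x i ^ 2)
          * (hh V (tau δ r η) i)⁻¹)
        = (zw z η * Real.exp (-∑ i, tau δ r η i * V.mulVec x i ^ 2))
          * ((V.mulVec k i) ^ 2 * (hh V (tau δ r η) i)⁻¹) := by ring
      _ ≤ (zw z η * Real.exp (-∑ i, tau δ r η i * V.mulVec x i ^ 2))
          * ∑ j, tau δ r η j * (V.mulVec k j) ^ 2 := mul_le_mul_of_nonneg_left hc hw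
      _ = _ := by
          rw [Finset.mul_sum]
          exact Finset.sum_congr rfl fun j _ => by ring
  refine h1.trans ?_
  rw [Finset.mul_sum]
  refine Finset.sum_le_sum fun j _ => ?_
  rw [hpj j]
  have hD : ld δ r z ((V.mulVec x j) ^ 2) ≤ Dg δ r z (V.mulVec x j) := by
    obtain ⟨-, -, -, -, -, hl, hu, -⟩ := hS Y s ζ δ r z hM ((V.mulVec x j) ^ 2) (sq_nonneg _)
    unfold Dg
    have h2 : 4 * (V.mulVec x j) ^ 2 * ldd r z ((V.mulVec x j) ^ 2)
        ≤ 4 * (V.mulVec x j) ^ 2 * tz r z ((V.mulVec x j) ^ 2) :=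
      mul_le_mul_of_nonneg_left hl (by positivity)
    nlinarith
  have h3 := mul_le_mul_of_nonneg_left hD
    (mul_nonneg hZ1.le (sq_nonneg (V.mulVec k j)))
  calc (V.mulVec k j) ^ 2 * (Zy δ r z (fun _ : Finset (Fin n × Y) => 1) (V.mulVec x)
        * ld δ r z ((V.mulVec x j) ^ 2))
      = Zy δ r z (fun _ : Finset (Fin n × Y) => 1) (V.mulVec x) * (V.mulVec k j) ^ 2
        * ld δ r z ((V.mulVec x j) ^ 2) := by ring
    _ ≤ Zy δ r z (fun _ : Finset (Fin n × Y) => 1) (V.mulVec x) * (V.mulVec k j) ^ 2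
        * Dg δ r z (V.mulVec x j) := h3
    _ = _ := by ring

end MQaux

end Pool.Agent.Helper75.GR
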