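import Pool.Agent.Helper75.GR.Stmts

open Finset MeasureTheory Filter Topology Matrix
open scoped ENNReal ContDiff

namespace Pool.Agent.Helper75.GR

open Pool.Agent.Helper44.GF Pool.Agent.Helper44.GN Pool.Agent.Helper44.GH

theorem st_ROW (hS : ST_SLV) (hPM : ST_PM) (hL : ST_LAW1) : ST_ROW := by
  intro n m Y _ _ s ζ δ r z V hM hV
  obtain ⟨P, hP, hb, hF, hφ, h0, hL2⟩ := hPM n m Y s ζ δ r z V hM hV
  refine ⟨P, hP, hb, hF, hL2, fun i => ?_⟩
  haveI := hP
  by_cases hi : V i = 0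
  · have hy := h0 i hi
    have hl : ld δ r z 0 ≠ 0 := by
      have := (hS Y s ζ δ r z hM 0 le_rfl).2.2.1
      have := hM.d0
      linarith
    have e1 : ∫ y, (y i) ^ 2 ∂P = ld δ r z 0 ^ 2 := by
      rw [integral_congr_ae (g := fun _ => ld δ r z 0 ^ 2)
        (by filter_upwards [hy] with y h; simp only [h])]
      simp
    have e2 : ∫ y, ((y i)⁻¹) ^ 2 ∂P = ((ld δ r z 0)⁻¹) ^ 2 := by
      rw [integral_congr_ae (g := fun _ => ((ld δ r z 0)⁻¹) ^ 2)
        (by filter_upwards [hy] with y h; simp only [h])]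
      simp
    have e3 : ∫ y, y i ∂P = ld δ r z 0 := by
      rw [integral_congr_ae (g := fun _ => ld δ r z 0)
        (by filter_upwards [hy] with y h; simp only [h])]
      simp
    have e4 : ∫ y, (y i)⁻¹ ∂P = (ld δ r z 0)⁻¹ := by
      rw [integral_congr_ae (g := fun _ => (ld δ r z 0)⁻¹)
        (by filter_upwards [hy] with y h; simp only [h])]
      simp
    rw [e1, e2, e3, e4]
    have : 2 * ld δ r z 0 ^ 2 * ((ld δ r z 0)⁻¹) ^ 2 + 6 - 8 * ld δ r z 0 * (ld δ r z 0)⁻¹ = 0 := by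
      field_simp
      ring
    rw [this]
    norm_num
  · have h := hL n m Y s ζ δ r z V hM hV i hi
    have c1 : ContinuousOn (fun t : ℝ => t ^ 2) (Set.Ioi 0) := (continuous_pow 2).continuousOn
    have c2 : ContinuousOn (fun t : ℝ => (t⁻¹) ^ 2) (Set.Ioi 0) :=
      (continuousOn_inv₀.mono (fun t ht => ne_of_gt ht)).pow 2
    have c3 : ContinuousOn (fun t : ℝ => t) (Set.Ioi 0) := continuousOn_id
    have c4 : ContinuousOn (fun t : ℝ => t⁻¹) (Set.Ioi 0) :=
      continuousOn_inv₀.mono (fun t ht => ne_of_gt ht)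
    rw [hφ i hi _ c1, hφ i hi _ c2, hφ i hi _ c3, hφ i hi _ c4]
    exact h

end Pool.Agent.Helper75.GR
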