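import Pool.Agent.Helper75.GR.Stmts

/-!
# gh_mods SLV: the exponent `lam`, its derivatives and the regular variation bounds
-/

open Finset MeasureTheory Filter Topology Matrix
open scoped ENNReal ContDiff

namespace Pool.Agent.Helper75.GR

open Pool.Agent.Helper44.GF Pool.Agent.Helper44.GN Pool.Agent.Helper44.GH

section SLV

set_option linter.unusedSectionVars false

variable {Y : Type} [Fintype Y]

private lemma SLV_e (a b u : ℝ) :
    HasDerivAt (fun v : ℝ => a * Real.exp (-(v * b))) (-(b * (a * Real.exp (-(u * b))))) u := by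
  have h1 : HasDerivAt (fun v : ℝ => -(v * b)) (-(1 * b)) u :=
    ((hasDerivAt_id' u).mul_const b).neg
  have h2 := (h1.exp).const_mul a
  have e : a * (Real.exp (-(u * b)) * -(1 * b)) = -(b * (a * Real.exp (-(u * b)))) := by ring
  rw [e] at h2
  exact h2

private lemma SLV_epos {a b : ℝ} (ha : 0 < a) (u : ℝ) : 0 < a * Real.exp (-(u * b)) :=
  mul_pos ha (Real.exp_pos _)

private lemma SLV_bz_deriv {r z : Y → ℝ} {y : Y} (hz : 0 < z y) (u : ℝ) :
    HasDerivAt (bz r z y) (-(r y * bz r z y u * (1 - bz r z y u))) u := by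
  have he := SLV_e (z y) (r y) u
  have hp : 0 < z y * Real.exp (-(u * r y)) := SLV_epos hz u
  have h1 : (1 + z y * Real.exp (-(u * r y))) ≠ 0 := by positivity
  have h := he.div (he.const_add 1) h1
  have e : (-(r y * (z y * Real.exp (-(u * r y)))) * (1 + z y * Real.exp (-(u * r y))) -
      z y * Real.exp (-(u * r y)) * -(r y * (z y * Real.exp (-(u * r y))))) /
      (1 + z y * Real.exp (-(u * r y))) ^ 2 = -(r y * bz r z y u * (1 - bz r z y u)) := by
    unfold bz
    field_simp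
    ring
  rw [e] at h
  exact h

private lemma SLV_log_deriv {r z : Y → ℝ} {y : Y} (hz : 0 < z y) (u : ℝ) :
    HasDerivAt (fun v : ℝ => Real.log ((1 + z y) / (1 + z y * Real.exp (-(v * r y)))))
      (r y * bz r z y u) u := by
  have he := (SLV_e (z y) (r y) u).const_add 1
  have hp : 0 < z y * Real.exp (-(u * r y)) := SLV_epos hz u
  have h1 : (1 + z y * Real.exp (-(u * r y))) ≠ 0 := by positivity
  have h := (he.log h1).const_sub (Real.log (1 + z y))
  have e : -(-(r y * (z y * Real.exp (-(u * r y)))) / (1 + z y * Real.exp (-(u * r y)))) =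
      r y * bz r z y u := by
    unfold bz
    field_simp
  rw [e] at h
  have hf : (fun v : ℝ => Real.log ((1 + z y) / (1 + z y * Real.exp (-(v * r y))))) =
      fun v : ℝ => Real.log (1 + z y) - Real.log (1 + z y * Real.exp (-(v * r y))) := by
    funext v
    have hv : 0 < z y * Real.exp (-(v * r y)) := SLV_epos hz v
    rw [Real.log_div (by positivity) (by positivity)]
  rw [hf]
  exact h

private lemma SLV_bz_pos {r z : Y → ℝ} {y : Y} (hz : 0 < z y) (u : ℝ) : 0 < bz r z y u := by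
  have hp : 0 < z y * Real.exp (-(u * r y)) := SLV_epos hz u
  unfold bz
  positivity

private lemma SLV_bz_lt {r z : Y → ℝ} {y : Y} (hz : 0 < z y) (u : ℝ) : bz r z y u < 1 := by
  have hp : 0 < z y * Real.exp (-(u * r y)) := SLV_epos hz u
  unfold bz
  rw [div_lt_one (by positivity)]
  linarith

private lemma SLV_bz_le {r z : Y → ℝ} {y : Y} (hz : 0 < z y) (u : ℝ) :
    bz r z y u ≤ z y * Real.exp (-(u * r y)) := by
  have hp : 0 < z y * Real.exp (-(u * r y)) := SLV_epos hz u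
  unfold bz
  rw [div_le_iff₀ (by positivity)]
  nlinarith

private lemma SLV_bz_anti {r z : Y → ℝ} {y : Y} (hz : 0 < z y) (hr : 0 < r y) {u v : ℝ}
    (huv : u ≤ v) : bz r z y v ≤ bz r z y u := by
  have hp : 0 < z y * Real.exp (-(u * r y)) := SLV_epos hz u
  have hq : 0 < z y * Real.exp (-(v * r y)) := SLV_epos hz v
  have hle : z y * Real.exp (-(v * r y)) ≤ z y * Real.exp (-(u * r y)) := by
    apply mul_le_mul_of_nonneg_left _ hz.le
    apply Real.exp_le_exp.mpr
    have := mul_le_mul_of_nonneg_right huv hr.le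
    linarith
  unfold bz
  rw [div_le_div_iff₀ (by positivity) (by positivity)]
  nlinarith

private lemma SLV_ez {r z : Y → ℝ} {y : Y} (hz : 0 < z y) (hr : 0 < r y) {u : ℝ}
    (hu : 0 ≤ u) : z y * Real.exp (-(u * r y)) ≤ z y := by
  have h : Real.exp (-(u * r y)) ≤ 1 := by
    rw [← Real.exp_zero]
    apply Real.exp_le_exp.mpr
    have := mul_nonneg hu hr.le
    linarith
  nlinarith

private lemma SLV_lam {δ : ℝ} {r z : Y → ℝ} (hz : ∀ y, 0 < z y) (u : ℝ) :
    HasDerivAt (lam δ r z) (ld δ r z u) u := by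
  have h1 : HasDerivAt (fun v : ℝ => δ * v) (δ * 1) u := (hasDerivAt_id' u).const_mul δ
  have h2 : HasDerivAt (fun v : ℝ => ∑ y, Real.log ((1 + z y) /
      (1 + z y * Real.exp (-(v * r y))))) (∑ y, r y * bz r z y u) u :=
    HasDerivAt.fun_sum (fun y _ => SLV_log_deriv (hz y) u)
  have h3 := h1.add h2
  rw [mul_one] at h3
  exact h3

private lemma SLV_ld {δ : ℝ} {r z : Y → ℝ} (hz : ∀ y, 0 < z y) (u : ℝ) :
    HasDerivAt (ld δ r z) (-ldd r z u) u := by
  have h2 : HasDerivAt (fun v : ℝ => ∑ y, r y * bz r z y v)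
      (∑ y, r y * (-(r y * bz r z y u * (1 - bz r z y u)))) u :=
    HasDerivAt.fun_sum (fun y _ => (SLV_bz_deriv (hz y) u).const_mul (r y))
  have h3 := h2.const_add δ
  have e : (∑ y, r y * (-(r y * bz r z y u * (1 - bz r z y u)))) = -ldd r z u := by
    unfold ldd
    rw [← Finset.sum_neg_distrib]
    refine Finset.sum_congr rfl fun y _ => ?_
    ring
  rw [e] at h3
  exact h3

private lemma SLV_ld_anti {δ : ℝ} {r z : Y → ℝ} (hz : ∀ y, 0 < z y) (hr : ∀ y, 0 < r y)
    {u v : ℝ} (huv : u ≤ v) : ld δ r z v ≤ ld δ r z u := by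
  unfold ld
  have : ∑ y, r y * bz r z y v ≤ ∑ y, r y * bz r z y u :=
    Finset.sum_le_sum fun y _ => mul_le_mul_of_nonneg_left (SLV_bz_anti (hz y) (hr y) huv)
      (hr y).le
  linarith

private lemma SLV_ld_ge {δ : ℝ} {r z : Y → ℝ} (hz : ∀ y, 0 < z y) (hr : ∀ y, 0 < r y)
    (u : ℝ) : δ ≤ ld δ r z u := by
  unfold ld
  have : 0 ≤ ∑ y, r y * bz r z y u :=
    Finset.sum_nonneg fun y _ => mul_nonneg (hr y).le (SLV_bz_pos (hz y) u).le
  linarith

private lemma SLV_ldd_nonneg {r z : Y → ℝ} (hz : ∀ y, 0 < z y) (u : ℝ) : 0 ≤ ldd r z u := by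
  unfold ldd
  refine Finset.sum_nonneg fun y _ => ?_
  have h1 := SLV_bz_pos (r := r) (hz y) u
  have h2 := SLV_bz_lt (r := r) (hz y) u
  have h3 : 0 < 1 - bz r z y u := by linarith
  positivity

private lemma SLV_ldd_le {r z : Y → ℝ} (hz : ∀ y, 0 < z y) (u : ℝ) : ldd r z u ≤ tz r z u := by
  unfold ldd tz
  refine Finset.sum_le_sum fun y _ => ?_
  have h1 := SLV_bz_pos (r := r) (hz y) u
  have h2 := SLV_bz_lt (r := r) (hz y) u
  have h3 := SLV_bz_le (r := r) (hz y) u
  have h4 : 0 ≤ r y ^ 2 := sq_nonneg _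
  calc r y ^ 2 * bz r z y u * (1 - bz r z y u) ≤ r y ^ 2 * bz r z y u * 1 :=
        mul_le_mul_of_nonneg_left (by linarith) (by positivity)
    _ = r y ^ 2 * bz r z y u := by ring
    _ ≤ r y ^ 2 * (z y * Real.exp (-(u * r y))) := mul_le_mul_of_nonneg_left h3 h4
    _ = z y * r y ^ 2 * Real.exp (-(u * r y)) := by ring

private lemma SLV_m1 {s ζ δ : ℝ} {r z : Y → ℝ} (h : MD s ζ δ r z) {u : ℝ} (hu : 0 ≤ u) :
    m1 δ r z u ≤ (1 + ζ) * ld δ r z u := by
  unfold m1 ld
  have h1 : ∑ y, z y * r y * Real.exp (-(u * r y)) ≤ (1 + ζ) * ∑ y, r y * bz r z y u := by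
    rw [Finset.mul_sum]
    refine Finset.sum_le_sum fun y _ => ?_
    have hp : 0 < z y * Real.exp (-(u * r y)) := SLV_epos (h.z0 y) u
    have he : z y * Real.exp (-(u * r y)) ≤ ζ :=
      (SLV_ez (h.z0 y) (h.r0 y) hu).trans (h.z1 y)
    have hb := SLV_bz_pos (r := r) (h.z0 y) u
    have hbe : bz r z y u * (1 + z y * Real.exp (-(u * r y))) =
        z y * Real.exp (-(u * r y)) := by
      unfold bz
      field_simp
    have h2 : z y * Real.exp (-(u * r y)) ≤ (1 + ζ) * bz r z y u := by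
      calc z y * Real.exp (-(u * r y)) = bz r z y u * (1 + z y * Real.exp (-(u * r y))) :=
            hbe.symm
        _ ≤ bz r z y u * (1 + ζ) := mul_le_mul_of_nonneg_left (by linarith) hb.le
        _ = (1 + ζ) * bz r z y u := by ring
    calc z y * r y * Real.exp (-(u * r y)) = r y * (z y * Real.exp (-(u * r y))) := by ring
      _ ≤ r y * ((1 + ζ) * bz r z y u) := mul_le_mul_of_nonneg_left h2 (h.r0 y).le
      _ = (1 + ζ) * (r y * bz r z y u) := by ring
  have h3 := h.d0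
  have h4 := h.k0
  nlinarith

private lemma SLV_utz {s ζ δ : ℝ} {r z : Y → ℝ} (h : MD s ζ δ r z) {u : ℝ} (hu : 0 ≤ u) :
    u * tz r z u ≤ 1 / 4 * ld δ r z u := by
  have hl : 0 < ld δ r z u := lt_of_lt_of_le h.d0 (SLV_ld_ge h.z0 h.r0 u)
  rcases hu.eq_or_lt with h0 | h0
  · rw [← h0]
    rw [← h0] at hl
    linarith
  · have h1 := h.h1 u h0
    have h2 := SLV_m1 h hu
    have h3 := mul_le_mul_of_nonneg_left h2 h.s0.le
    have h4 := mul_le_mul_of_nonneg_right h.hs hl.le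
    have h5 : u * tz r z u ≤ s * m1 δ r z u := h1
    nlinarith

private lemma SLV_lam_ge {δ : ℝ} {r z : Y → ℝ} (hz : ∀ y, 0 < z y) (hr : ∀ y, 0 < r y)
    {u : ℝ} (hu : 0 ≤ u) : δ * u ≤ lam δ r z u := by
  unfold lam
  have : 0 ≤ ∑ y, Real.log ((1 + z y) / (1 + z y * Real.exp (-(u * r y)))) := by
    refine Finset.sum_nonneg fun y _ => Real.log_nonneg ?_
    have hp : 0 < z y * Real.exp (-(u * r y)) := SLV_epos (hz y) u
    rw [one_le_div (by positivity)]
    have := SLV_ez (hz y) (hr y) hu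
    linarith
  linarith

private lemma SLV_last {s ζ δ : ℝ} {r z : Y → ℝ} (h : MD s ζ δ r z) {u v : ℝ} (hu : 0 ≤ u)
    (huv : u ≤ v) :
    u ^ (1 / 2 : ℝ) * ld δ r z (u ^ 2) ≤ v ^ (1 / 2 : ℝ) * ld δ r z (v ^ 2) := by
  have hl : ∀ t, 0 < ld δ r z t := fun t => lt_of_lt_of_le h.d0 (SLV_ld_ge h.z0 h.r0 t)
  rcases hu.eq_or_lt with h0 | h0
  · rw [← h0, Real.zero_rpow (by norm_num), zero_mul]
    have hv : 0 ≤ v := hu.trans huv
    exact mul_nonneg (Real.rpow_nonneg hv _) (hl _).le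
  · have hder : ∀ t : ℝ, 0 < t → HasDerivAt (fun t : ℝ => t ^ (1 / 2 : ℝ) * ld δ r z (t ^ 2))
        ((1 / 2 : ℝ) * t ^ ((1 / 2 : ℝ) - 1) * ld δ r z (t ^ 2) +
          t ^ (1 / 2 : ℝ) * (-ldd r z (t ^ 2) * (2 * t))) t := by
      intro t ht
      have h1 := Real.hasDerivAt_rpow_const (x := t) (p := (1 / 2 : ℝ)) (Or.inl ht.ne')
      have h2 : HasDerivAt (fun t : ℝ => t ^ 2) (2 * t) t := by
        have := hasDerivAt_pow 2 t
        have e : ((2 : ℕ) : ℝ) * t ^ (2 - 1) = 2 * t := by norm_num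
        rw [e] at this
        exact this
      have h3 : HasDerivAt (ld δ r z ∘ fun t : ℝ => t ^ 2) (-ldd r z (t ^ 2) * (2 * t)) t :=
        HasDerivAt.comp (h₂ := ld δ r z) t (SLV_ld (δ := δ) (r := r) h.z0 (t ^ 2)) h2
      have h3' : HasDerivAt (fun t : ℝ => ld δ r z (t ^ 2)) (-ldd r z (t ^ 2) * (2 * t)) t := h3
      exact h1.mul h3'
    have hmono : MonotoneOn (fun t : ℝ => t ^ (1 / 2 : ℝ) * ld δ r z (t ^ 2)) (Set.Ici u) := by
      apply monotoneOn_of_deriv_nonneg (convex_Ici u)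
      · intro t ht
        exact (hder t (lt_of_lt_of_le h0 ht)).continuousAt.continuousWithinAt
      · intro t ht
        rw [interior_Ici] at ht
        exact (hder t (h0.trans ht)).differentiableAt.differentiableWithinAt
      · intro t ht
        rw [interior_Ici] at ht
        have ht0 : 0 < t := h0.trans ht
        rw [(hder t ht0).deriv]
        have h1 : t ^ 2 * ldd r z (t ^ 2) ≤ 1 / 4 * ld δ r z (t ^ 2) :=
          (mul_le_mul_of_nonneg_left (SLV_ldd_le h.z0 _) (sq_nonneg t)).trans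
            (SLV_utz h (sq_nonneg t))
        have h2 : t ^ ((1 / 2 : ℝ) - 1) = t ^ (1 / 2 : ℝ) / t := by
          rw [Real.rpow_sub ht0, Real.rpow_one]
        rw [h2]
        have h3 : 0 ≤ t ^ (1 / 2 : ℝ) := Real.rpow_nonneg ht0.le _
        have e : (1 / 2 : ℝ) * (t ^ (1 / 2 : ℝ) / t) * ld δ r z (t ^ 2) +
            t ^ (1 / 2 : ℝ) * (-ldd r z (t ^ 2) * (2 * t)) =
            t ^ (1 / 2 : ℝ) / t * (2 * (1 / 4 * ld δ r z (t ^ 2) - t ^ 2 * ldd r z (t ^ 2))) := by
          field_simp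
          ring
        rw [e]
        have h4 : 0 ≤ 1 / 4 * ld δ r z (t ^ 2) - t ^ 2 * ldd r z (t ^ 2) := by linarith
        positivity
    exact hmono (Set.mem_Ici.mpr le_rfl) (Set.mem_Ici.mpr huv) huv

end SLV

theorem st_SLV : ST_SLV := by
  intro Y _ s ζ δ r z h u hu
  refine ⟨SLV_lam h.z0 u, SLV_ld h.z0 u, SLV_ld_ge h.z0 h.r0 u, SLV_ld_anti h.z0 h.r0 hu,
    SLV_ldd_nonneg h.z0 u, SLV_ldd_le h.z0 u, SLV_utz h hu, SLV_lam_ge h.z0 h.r0 hu,
    fun v hv => SLV_ld_anti h.z0 h.r0 hv, fun v hv => SLV_last h hu hv⟩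

end Pool.Agent.Helper75.GR
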