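import Pool.Agent.Helper75.GR.Stmts

/-! Module VAR: the variance of the trace. -/

open Finset MeasureTheory Filter Topology Matrix
open scoped ENNReal ContDiff

namespace Pool.Agent.Helper75.GR

open Pool.Agent.Helper44.GF Pool.Agent.Helper44.GN Pool.Agent.Helper44.GH

theorem var_tau {n : ℕ} {Y : Type} [Fintype Y] [DecidableEq Y] {δ : ℝ} {r : Y → ℝ}
    (hd : 0 < δ) (hr : ∀ y, 0 < r y) (η : Finset (Fin n × Y)) : tau δ r η ∈ Og n := by
  intro i
  unfold tau
  have : 0 ≤ ∑ y, if (i, y) ∈ η then r y else 0 :=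
    Finset.sum_nonneg fun y _ => by
      split_ifs
      · exact (hr y).le
      · exact le_rfl
  linarith

theorem var_W1 {n m : ℕ} {Y : Type} [Fintype Y] [DecidableEq Y] {δ : ℝ}
    {r z : Y → ℝ} {V : Matrix (Fin n) (Fin m) ℝ} (hq : ∀ y ∈ Og n, 0 < qf V y)
    (hd : 0 < δ) (hr : ∀ y, 0 < r y) (hz : ∀ y, 0 < z y) (η : Finset (Fin n × Y)) :
    0 < W1 V δ r z η :=
  mul_pos (Finset.prod_pos fun x _ => hz x.2) (Real.rpow_pos_of_pos (hq _ (var_tau hd hr η)) _)

theorem st_VAR (hV : ST_VD) (hD : ST_DIR) (hS : ST_SGF) (hU : ST_UPD) : ST_VAR := by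
  intro n m Y _ _ s ζ δ r z V Z hM hinj hE
  have hq : ∀ y ∈ Og n, 0 < qf V y := by
    intro y hy
    by_cases hn : Nonempty (Fin n)
    · exact (hU n m V Z hinj y hy (Classical.choice hn) 0 le_rfl).2.1
    · have hm : IsEmpty (Fin m) := by
        by_contra hne
        have hne' : Nonempty (Fin m) := not_isEmpty_iff.1 hne
        have h1 : (fun _ : Fin m => (1 : ℝ)) = fun _ => (0 : ℝ) := by
          apply hinj
          funext i
          exact absurd ⟨i⟩ hn
        have h2 := congrFun h1 (Classical.choice hne')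
        norm_num at h2
      unfold qf
      rw [Matrix.det_isEmpty]
      norm_num
  have hW : ∀ η : Finset (Fin n × Y), 0 < W1 V δ r z η := var_W1 hq hM.d0 hM.r0 hM.z0
  have hMS : 0 < MS V δ r z := Finset.sum_pos (fun η _ => hW η) ⟨∅, Finset.mem_univ _⟩
  set F : Finset (Fin n × Y) → ℝ := fun η => Matrix.trace (BB V Z (tau δ r η)) with hF
  have h0 : ∑ η : Finset (Fin n × Y), W1 V δ r z η * F η = 0 := by
    unfold EX at hE
    rcases div_eq_zero_iff.1 hE with h | h
    · exact h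
    · exact absurd h hMS.ne'
  have h1 := hV n m Y s ζ δ r z V hM hinj F
  have h2 := hD n m Y s ζ δ r z V Z hM hinj
  rw [h0] at h1
  have hsg : 0 ≤ ∑ η : Finset (Fin n × Y), W1 V δ r z η * sgm V Z (tau δ r η) :=
    Finset.sum_nonneg fun η _ => mul_nonneg (hW η).le
      (hS n m V Z hinj _ (var_tau hM.d0 hM.r0 η)).2.2.2
  set A : ℝ := ∑ η : Finset (Fin n × Y), W1 V δ r z η * F η ^ 2 with hA
  set D : ℝ := ∑ η : Finset (Fin n × Y), W1 V δ r z η * ∑ x ∈ ηᶜ,
          z x.2 * (1 + r x.2 * hh V (tau δ r η) x.1) ^ (-(1 / 2) : ℝ) * dd F η x ^ 2 with hDd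
  set S : ℝ := ∑ η : Finset (Fin n × Y), W1 V δ r z η * sgm V Z (tau δ r η) with hSd
  have h3 : A ≤ 2 * D := by
    have h4 : MS V δ r z * A ≤ MS V δ r z * (2 * D) := by
      have : 2 * MS V δ r z * D = MS V δ r z * (2 * D) := by ring
      rw [← this]
      simpa using h1
    exact le_of_mul_le_mul_left h4 hMS
  have h5 : D ≤ 2225 / 10000 * S := h2
  have h6 : A ≤ 445 / 1000 * S := by nlinarith
  unfold EX
  rw [← mul_div_assoc]
  exact div_le_div_of_nonneg_right h6 hMS.le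

end Pool.Agent.Helper75.GR
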