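import Pool.Agent.Helper75.GR.Stmts
import Pool.Agent.Helper94.GF.LINK

/-!
# The variance inequality (module VD)
-/

open Finset MeasureTheory Filter Topology Matrix
open scoped ENNReal ContDiff

namespace Pool.Agent.Helper75.GR

open Pool.Agent.Helper44.GF Pool.Agent.Helper44.GN Pool.Agent.Helper44.GH

section VD

variable {n m : ℕ} {Y : Type} [Fintype Y] [DecidableEq Y]

theorem vd_tau_pos (δ : ℝ) (r : Y → ℝ) (hδ : 0 < δ) (hr : ∀ y, 0 < r y)
    (η : Finset (Fin n × Y)) : tau δ r η ∈ Og n := by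
  intro i
  have h : 0 ≤ ∑ y, if (i, y) ∈ η then r y else 0 := Finset.sum_nonneg fun y _ => by
    split_ifs
    · exact (hr y).le
    · exact le_rfl
  unfold tau
  linarith

theorem vd_gauss (V : Matrix (Fin n) (Fin m) ℝ) (hV : Function.Injective V.mulVec)
    (y : Fin n → ℝ) (hy : y ∈ Og n) :
    Integrable (fun x : Fin m → ℝ => Real.exp (-∑ i, y i * (V.mulVec x i) ^ 2)) ∧
    0 < qf V y ∧
    ∫ x : Fin m → ℝ, Real.exp (-∑ i, y i * (V.mulVec x i) ^ 2)
      = G0 m * (qf V y) ^ (-(1 / 2) : ℝ) := by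
  have h := link_gauss V hV y hy
  refine ⟨h.1, h.2.1, ?_⟩
  rw [h.2.2, mul_comm]
  rfl

theorem vd_upd_sum (τ v : Fin n → ℝ) (j : Fin n) (s : ℝ) :
    ∑ i, Function.update τ j (τ j + s) i * v i ^ 2 = ∑ i, τ i * v i ^ 2 + s * v j ^ 2 := by
  have h : ∀ i, Function.update τ j (τ j + s) i * v i ^ 2
      = τ i * v i ^ 2 + if i = j then s * v i ^ 2 else 0 := by
    intro i
    rw [Function.update_apply]
    split_ifs with hi
    · subst hi
      ring
    · ring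
  rw [Finset.sum_congr rfl fun i _ => h i, Finset.sum_add_distrib]
  congr 1
  rw [Finset.sum_ite_eq' Finset.univ j fun i => s * v i ^ 2]
  simp

theorem vd_Z1 (hPE : ST_PE) (δ : ℝ) (r z : Y → ℝ) (hδ : 0 < δ) (hr : ∀ y, 0 < r y)
    (hz : ∀ y, 0 < z y) (v : Fin n → ℝ) :
    Zy δ r z (fun _ => 1) v
      = (∏ y, (1 + z y)) ^ n * Real.exp (-∑ i, gg δ r z (v i)) := by
  have h := hPE n Y δ r z hδ hr hz (fun _ => 1) (fun y _ i => ⟨0, fun s _ => by simp⟩)
    (fun i => v i ^ 2)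
  simp only [mul_one] at h
  simpa only [Zy, gg, mul_one] using h

theorem vd_EZ (hPE : ST_PE) (δ : ℝ) (r z : Y → ℝ) (hδ : 0 < δ) (hr : ∀ y, 0 < r y)
    (hz : ∀ y, 0 < z y) (Ψ : Finset (Fin n × Y) → ℝ) (v : Fin n → ℝ) :
    EY δ r z Ψ v * Real.exp (-∑ i, gg δ r z (v i))
      = ((∏ y, (1 + z y)) ^ n)⁻¹ * Zy δ r z Ψ v := by
  have hK : 0 < (∏ y, (1 + z y)) ^ n :=
    pow_pos (Finset.prod_pos fun y _ => by linarith [hz y]) n
  have hE := Real.exp_pos (-∑ i, gg δ r z (v i))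
  unfold EY
  rw [vd_Z1 hPE δ r z hδ hr hz v]
  field_simp

theorem vd_int (V : Matrix (Fin n) (Fin m) ℝ) (hV : Function.Injective V.mulVec)
    (δ : ℝ) (r z : Y → ℝ) (hδ : 0 < δ) (hr : ∀ y, 0 < r y)
    (Ψ : Finset (Fin n × Y) → ℝ) :
    Integrable (fun x : Fin m → ℝ => Zy δ r z Ψ (V.mulVec x)) ∧
    ∫ x : Fin m → ℝ, Zy δ r z Ψ (V.mulVec x) = G0 m * ∑ η, W1 V δ r z η * Ψ η := by
  have h := fun η : Finset (Fin n × Y) => vd_gauss V hV (tau δ r η) (vd_tau_pos δ r hδ hr η)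
  have h1 : ∀ η : Finset (Fin n × Y), Integrable (fun x : Fin m → ℝ =>
      zw z η * Real.exp (-∑ i, tau δ r η i * (V.mulVec x) i ^ 2) * Ψ η) :=
    fun η => ((h η).1.const_mul (zw z η)).mul_const (Ψ η)
  refine ⟨integrable_finsetSum _ fun η _ => h1 η, ?_⟩
  unfold Zy
  rw [integral_finsetSum _ fun η _ => h1 η, Finset.mul_sum]
  refine Finset.sum_congr rfl fun η _ => ?_
  rw [integral_mul_const, integral_const_mul, (h η).2.2]
  unfold W1
  ring

theorem vd_es (hUPD : ST_UPD) (V : Matrix (Fin n) (Fin m) ℝ) (hV : Function.Injective V.mulVec)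
    (δ : ℝ) (r z : Y → ℝ) (hδ : 0 < δ) (hr : ∀ y, 0 < r y)
    (F : Finset (Fin n × Y) → ℝ) :
    Integrable (fun x : Fin m → ℝ => Zy δ r z (fun η => ∑ a ∈ ηᶜ,
      z a.2 * Real.exp (-(r a.2 * (V.mulVec x) a.1 ^ 2)) * dd F η a ^ 2) (V.mulVec x)) ∧
    ∫ x : Fin m → ℝ, Zy δ r z (fun η => ∑ a ∈ ηᶜ,
      z a.2 * Real.exp (-(r a.2 * (V.mulVec x) a.1 ^ 2)) * dd F η a ^ 2) (V.mulVec x)
      = G0 m * ∑ η, W1 V δ r z η * ∑ a ∈ ηᶜ,
          z a.2 * (1 + r a.2 * hh V (tau δ r η) a.1) ^ (-(1 / 2) : ℝ) * dd F η a ^ 2 := by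
  have h0 := fun η : Finset (Fin n × Y) => vd_tau_pos δ r hδ hr η
  have hu := fun (η : Finset (Fin n × Y)) (a : Fin n × Y) =>
    hUPD n m V V hV (tau δ r η) (h0 η) a.1 (r a.2) (hr a.2).le
  have h := fun (η : Finset (Fin n × Y)) (a : Fin n × Y) =>
    vd_gauss V hV _ (hu η a).1
  have h2 : ∀ (η : Finset (Fin n × Y)) (a : Fin n × Y) (x : Fin m → ℝ),
      Real.exp (-∑ i, Function.update (tau δ r η) a.1 (tau δ r η a.1 + r a.2) i
        * (V.mulVec x i) ^ 2)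
      = Real.exp (-∑ i, tau δ r η i * (V.mulVec x) i ^ 2)
        * Real.exp (-(r a.2 * (V.mulVec x) a.1 ^ 2)) := by
    intro η a x
    rw [vd_upd_sum, ← Real.exp_add]
    congr 1
    ring
  have h1 : ∀ (η : Finset (Fin n × Y)) (a : Fin n × Y), Integrable (fun x : Fin m → ℝ =>
      zw z η * Real.exp (-∑ i, tau δ r η i * (V.mulVec x) i ^ 2)
        * (z a.2 * Real.exp (-(r a.2 * (V.mulVec x) a.1 ^ 2)) * dd F η a ^ 2)) := by
    intro η a
    refine (((h η a).1).const_mul (zw z η * z a.2 * dd F η a ^ 2)).congr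
      (Filter.Eventually.of_forall fun x => ?_)
    show zw z η * z a.2 * dd F η a ^ 2 * Real.exp (-∑ i, Function.update (tau δ r η) a.1
      (tau δ r η a.1 + r a.2) i * (V.mulVec x i) ^ 2) = _
    rw [h2 η a x]
    ring
  have h3 : ∀ (η : Finset (Fin n × Y)), Integrable (fun x : Fin m → ℝ =>
      zw z η * Real.exp (-∑ i, tau δ r η i * (V.mulVec x) i ^ 2)
        * ∑ a ∈ ηᶜ, z a.2 * Real.exp (-(r a.2 * (V.mulVec x) a.1 ^ 2)) * dd F η a ^ 2) := by
    intro η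
    simp only [Finset.mul_sum]
    exact integrable_finsetSum _ fun a _ => h1 η a
  refine ⟨integrable_finsetSum _ fun η _ => h3 η, ?_⟩
  unfold Zy
  rw [integral_finsetSum _ fun η _ => h3 η, Finset.mul_sum]
  refine Finset.sum_congr rfl fun η _ => ?_
  simp only [Finset.mul_sum]
  rw [integral_finsetSum _ fun a _ => h1 η a]
  refine Finset.sum_congr rfl fun a _ => ?_
  have h4 : ∫ x : Fin m → ℝ, zw z η * Real.exp (-∑ i, tau δ r η i * (V.mulVec x) i ^ 2)
        * (z a.2 * Real.exp (-(r a.2 * (V.mulVec x) a.1 ^ 2)) * dd F η a ^ 2)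
      = zw z η * z a.2 * dd F η a ^ 2 * ∫ x : Fin m → ℝ, Real.exp (-∑ i,
        Function.update (tau δ r η) a.1 (tau δ r η a.1 + r a.2) i * (V.mulVec x i) ^ 2) := by
    rw [← integral_const_mul]
    refine integral_congr_ae (Filter.Eventually.of_forall fun x => ?_)
    show _ = zw z η * z a.2 * dd F η a ^ 2 * Real.exp (-∑ i, Function.update (tau δ r η) a.1
      (tau δ r η a.1 + r a.2) i * (V.mulVec x i) ^ 2)
    rw [h2 η a x]
    ring
  obtain ⟨-, hq, hhn, -, hqu, -⟩ := hu η a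
  have h5 : 0 ≤ 1 + r a.2 * hh V (tau δ r η) a.1 := by
    have := mul_nonneg (hr a.2).le hhn
    linarith
  rw [h4, (h η a).2.2, hqu, Real.mul_rpow hq.le h5]
  unfold W1
  ring

end VD

theorem st_VD (hPE : ST_PE) (_hSLV : ST_SLV) (hGPO : ST_GPO) (hES : ST_ES) (hBL : ST_BL)
    (hXF : ST_XF) (hBES : ST_BES) (hUPD : ST_UPD) : ST_VD := by
  intro n m Y _ _ s ζ δ r z V hM hV F
  have hδ := hM.d0
  have hr := hM.r0
  have hz := hM.z0
  obtain ⟨gc, Dc, gD, -, gl, g1, L, hL, g2⟩ := hGPO Y s ζ δ r z hM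
  obtain ⟨fc, wc, C, hC, f1, w1, tay⟩ := hXF n Y s ζ δ r z hM F
  have hG : 0 < G0 m := link_gauss_pos m
  set K : ℝ := (∏ y, (1 + z y)) ^ n with hKdef
  have hK : 0 < K := pow_pos (Finset.prod_pos fun y _ => by linarith [hz y]) n
  have hEZ := fun (Ψ : Finset (Fin n × Y) → ℝ) (v : Fin n → ℝ) =>
    vd_EZ hPE δ r z hδ hr hz Ψ v
  have hmv : Continuous fun x : Fin m → ℝ => V.mulVec x :=
    continuous_const.matrix_mulVec continuous_id
  -- the integrals of the expectations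
  have hI : ∀ Ψ : Finset (Fin n × Y) → ℝ,
      Integrable (fun x : Fin m → ℝ => EY δ r z Ψ (V.mulVec x)
        * Real.exp (-∑ i, gg δ r z (V.mulVec x i))) ∧
      ∫ x : Fin m → ℝ, EY δ r z Ψ (V.mulVec x) * Real.exp (-∑ i, gg δ r z (V.mulVec x i))
        = K⁻¹ * G0 m * ∑ η, W1 V δ r z η * Ψ η := by
    intro Ψ
    have h := vd_int V hV δ r z hδ hr Ψ
    simp only [hEZ]
    refine ⟨h.1.const_mul _, ?_⟩
    rw [integral_const_mul, h.2]
    ring
  have hI0 : Integrable (fun x : Fin m → ℝ => Real.exp (-∑ i, gg δ r z (V.mulVec x i))) ∧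
      ∫ x : Fin m → ℝ, Real.exp (-∑ i, gg δ r z (V.mulVec x i))
        = K⁻¹ * G0 m * MS V δ r z := by
    have h := hI (fun _ => 1)
    have h1 : ∀ v : Fin n → ℝ, EY δ r z (fun _ => 1) v = 1 := by
      intro v
      have h2 : 0 < Zy δ r z (fun _ => 1) v := by
        rw [vd_Z1 hPE δ r z hδ hr hz v]
        exact mul_pos hK (Real.exp_pos _)
      exact div_self h2.ne'
    simp only [h1, one_mul, mul_one] at h
    exact h
  -- the square of the expectation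
  have hsq : Integrable (fun x : Fin m → ℝ => EY δ r z F (V.mulVec x) ^ 2
      * Real.exp (-∑ i, gg δ r z (V.mulVec x i))) := by
    have hc : Continuous (fun x : Fin m → ℝ => EY δ r z F (V.mulVec x) ^ 2) :=
      (fc.comp hmv).pow 2
    refine Integrable.bdd_mul (c := C ^ 2) hI0.1 hc.aestronglyMeasurable
      (Filter.Eventually.of_forall fun x => ?_)
    rw [Real.norm_eq_abs, abs_of_nonneg (sq_nonneg _)]
    have h1 := abs_le.1 (f1 (V.mulVec x))
    nlinarith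
  have hvy : ∀ x : Fin m → ℝ, vy δ r z F (V.mulVec x)
      * Real.exp (-∑ i, gg δ r z (V.mulVec x i))
      = EY δ r z (fun η => F η ^ 2) (V.mulVec x) * Real.exp (-∑ i, gg δ r z (V.mulVec x i))
        - EY δ r z F (V.mulVec x) ^ 2 * Real.exp (-∑ i, gg δ r z (V.mulVec x i)) := by
    intro x
    unfold vy
    ring
  have hvi : Integrable (fun x : Fin m → ℝ => vy δ r z F (V.mulVec x)
      * Real.exp (-∑ i, gg δ r z (V.mulVec x i))) := by
    simp only [hvy]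
    exact (hI _).1.sub hsq
  have hvv : ∫ x : Fin m → ℝ, vy δ r z F (V.mulVec x)
      * Real.exp (-∑ i, gg δ r z (V.mulVec x i))
      = K⁻¹ * G0 m * (∑ η, W1 V δ r z η * F η ^ 2)
        - ∫ x : Fin m → ℝ, EY δ r z F (V.mulVec x) ^ 2
          * Real.exp (-∑ i, gg δ r z (V.mulVec x i)) := by
    simp only [hvy]
    rw [integral_sub (hI _).1 hsq, (hI _).2]
  -- Brascamp-Lieb
  have hBH : BH (n := n) (gg δ r z) (Dg δ r z) (1 * δ) L C (EY δ r z F)
      (fun i y => -(2 * y i * cy δ r z F y i)) := by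
    refine ⟨gc, Dc, fc, wc, by positivity, hL, hC, gD, ?_, g1, g2, f1, w1, tay⟩
    intro t
    have h1 := gl t
    have h2 : 0 ≤ δ * t ^ 2 := by positivity
    linarith
  have hBL1 := hBL n m V _ _ _ _ _ _ _ hV hBH
  have hw : ∫ x : Fin m → ℝ, (∑ i, (-(2 * V.mulVec x i * cy δ r z F (V.mulVec x) i)) ^ 2
        / Dg δ r z (V.mulVec x i)) * Real.exp (-∑ i, gg δ r z (V.mulVec x i))
      ≤ 1 * ∫ x : Fin m → ℝ, vy δ r z F (V.mulVec x)
        * Real.exp (-∑ i, gg δ r z (V.mulVec x i)) := by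
    rw [← integral_const_mul]
    refine integral_mono_of_nonneg (Filter.Eventually.of_forall fun x => ?_)
      (hvi.const_mul _) (Filter.Eventually.of_forall fun x => ?_)
    · show (0 : ℝ) ≤ (∑ i, (-(2 * V.mulVec x i * cy δ r z F (V.mulVec x) i)) ^ 2
        / Dg δ r z (V.mulVec x i)) * Real.exp (-∑ i, gg δ r z (V.mulVec x i))
      refine mul_nonneg (Finset.sum_nonneg fun i _ => ?_) (Real.exp_pos _).le
      have h1 := gD (V.mulVec x i)
      exact div_nonneg (sq_nonneg _) (by linarith)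
    · show (∑ i, (-(2 * V.mulVec x i * cy δ r z F (V.mulVec x) i)) ^ 2
        / Dg δ r z (V.mulVec x i)) * Real.exp (-∑ i, gg δ r z (V.mulVec x i))
        ≤ 1 * (vy δ r z F (V.mulVec x) * Real.exp (-∑ i, gg δ r z (V.mulVec x i)))
      have h1 := (hBES n Y s ζ δ r z hM F (V.mulVec x)).2
      have h2 := mul_le_mul_of_nonneg_right h1
        (Real.exp_pos (-∑ i, gg δ r z (V.mulVec x i))).le
      linarith
  -- Efron-Stein
  have hes : ∫ x : Fin m → ℝ, vy δ r z F (V.mulVec x)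
        * Real.exp (-∑ i, gg δ r z (V.mulVec x i))
      ≤ K⁻¹ * G0 m * ∑ η, W1 V δ r z η * ∑ a ∈ ηᶜ,
          z a.2 * (1 + r a.2 * hh V (tau δ r η) a.1) ^ (-(1 / 2) : ℝ) * dd F η a ^ 2 := by
    have h1 := vd_es hUPD V hV δ r z hδ hr F
    rw [mul_assoc, ← h1.2, ← integral_const_mul]
    refine integral_mono hvi (h1.1.const_mul _) fun x => ?_
    show vy δ r z F (V.mulVec x) * Real.exp (-∑ i, gg δ r z (V.mulVec x i)) ≤ K⁻¹ * Zy δ r z
      (fun η => ∑ a ∈ ηᶜ, z a.2 * Real.exp (-(r a.2 * (V.mulVec x) a.1 ^ 2)) * dd F η a ^ 2)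
      (V.mulVec x)
    rw [← hEZ]
    exact mul_le_mul_of_nonneg_right (hES n Y δ r z hδ hr hz F (V.mulVec x)).1
      (Real.exp_pos _).le
  have hA0 : 0 ≤ K⁻¹ * G0 m * MS V δ r z := by
    rw [← hI0.2]
    exact integral_nonneg fun x => (Real.exp_pos _).le
  have hA1 := (hI F).2
  rw [hI0.2, hA1] at hBL1
  have hq : 0 < K⁻¹ * G0 m := mul_pos (inv_pos.2 hK) hG
  generalize (∫ x : Fin m → ℝ, EY δ r z F (V.mulVec x) ^ 2
          * Real.exp (-∑ i, gg δ r z (V.mulVec x i))) = S2 at hBL1 hvv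
  generalize (∫ x : Fin m → ℝ, (∑ i, (-(2 * V.mulVec x i * cy δ r z F (V.mulVec x) i)) ^ 2
        / Dg δ r z (V.mulVec x i)) * Real.exp (-∑ i, gg δ r z (V.mulVec x i))) = SW
    at hBL1 hw
  generalize (∫ x : Fin m → ℝ, vy δ r z F (V.mulVec x)
        * Real.exp (-∑ i, gg δ r z (V.mulVec x i))) = SV at hvv hw hes
  generalize (∑ η, W1 V δ r z η * ∑ a ∈ ηᶜ,
          z a.2 * (1 + r a.2 * hh V (tau δ r η) a.1) ^ (-(1 / 2) : ℝ) * dd F η a ^ 2) = DD
    at hes ⊢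
  generalize (∑ η, W1 V δ r z η * F η ^ 2) = B2 at hvv ⊢
  generalize (∑ η, W1 V δ r z η * F η) = B1 at hBL1 ⊢
  generalize K⁻¹ * G0 m = q at *
  generalize MS V δ r z = M at *
  have e1 : q * M * SW ≤ q * M * (1 * SV) := mul_le_mul_of_nonneg_left hw hA0
  have e2 : q * M * SV ≤ q * M * (q * DD) := mul_le_mul_of_nonneg_left hes hA0
  have e3 : q * M * SV = q * M * (q * B2) - q * M * S2 := by
    rw [hvv]
    ring
  have e4 : q ^ 2 * (M * B2 - B1 ^ 2) ≤ q ^ 2 * (2 * M * DD) := by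
    nlinarith
  exact le_of_mul_le_mul_left e4 (by positivity)

end Pool.Agent.Helper75.GR
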