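import Pool.Agent.Helper75.GR.Stmts

/-!
# MP_d210aa_gt: the conditional expectation is a regular function
-/

open Finset MeasureTheory Filter Topology Matrix
open scoped ENNReal ContDiff

namespace Pool.Agent.Helper75.GR

open Pool.Agent.Helper44.GF Pool.Agent.Helper44.GN Pool.Agent.Helper44.GH

/-! ### Regular functions -/

/-- regular functions with data `C`, `w` -/
structure XF_D {n : ℕ} (f : (Fin n → ℝ) → ℝ) (C : ℝ) (w : Fin n → (Fin n → ℝ) → ℝ) : Prop where
  c0 : 0 ≤ C
  b0 : ∀ y, |f y| ≤ C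
  b1 : ∀ i y, |w i y| ≤ C
  l1 : ∀ y k : Fin n → ℝ, |f (y + k) - f y| ≤ C * ∑ i, |k i|
  t2 : ∀ y k : Fin n → ℝ, |f (y + k) - f y - ∑ i, w i y * k i| ≤ C * ∑ i, k i ^ 2

/-- regular functions -/
def XF_R {n : ℕ} (f : (Fin n → ℝ) → ℝ) : Prop := ∃ C w, XF_D f C w

theorem xf_const {n : ℕ} (c : ℝ) : XF_R (fun _ : Fin n → ℝ => c) := by
  refine ⟨|c|, fun _ _ => 0, ⟨abs_nonneg c, fun y => le_rfl, fun i y => ?_, fun y k => ?_,
    fun y k => ?_⟩⟩
  · rw [abs_zero]; exact abs_nonneg c
  · rw [sub_self, abs_zero]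
    exact mul_nonneg (abs_nonneg c) (Finset.sum_nonneg fun i _ => abs_nonneg _)
  · have : ∑ i : Fin n, (0 : ℝ) * k i = 0 := by simp
    rw [this, sub_self, sub_self, abs_zero]
    exact mul_nonneg (abs_nonneg c) (Finset.sum_nonneg fun i _ => sq_nonneg _)

theorem xf_add {n : ℕ} {f g : (Fin n → ℝ) → ℝ} (hf : XF_R f) (hg : XF_R g) :
    XF_R (fun y => f y + g y) := by
  obtain ⟨C, w, h⟩ := hf
  obtain ⟨D, v, k⟩ := hg
  refine ⟨C + D, fun i y => w i y + v i y, ⟨add_nonneg h.c0 k.c0, fun y => ?_, fun i y => ?_,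
    fun y q => ?_, fun y q => ?_⟩⟩
  · exact (abs_add_le _ _).trans (add_le_add (h.b0 y) (k.b0 y))
  · exact (abs_add_le _ _).trans (add_le_add (h.b1 i y) (k.b1 i y))
  · have e : f (y + q) + g (y + q) - (f y + g y) = (f (y + q) - f y) + (g (y + q) - g y) := by
      ring
    rw [e, add_mul]
    exact (abs_add_le _ _).trans (add_le_add (h.l1 y q) (k.l1 y q))
  · have e0 : ∑ i, (w i y + v i y) * q i = ∑ i, w i y * q i + ∑ i, v i y * q i := by
      rw [← Finset.sum_add_distrib]
      exact Finset.sum_congr rfl fun i _ => by ring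
    have e : f (y + q) + g (y + q) - (f y + g y) - ∑ i, (w i y + v i y) * q i
        = (f (y + q) - f y - ∑ i, w i y * q i) + (g (y + q) - g y - ∑ i, v i y * q i) := by
      rw [e0]; ring
    rw [e, add_mul]
    exact (abs_add_le _ _).trans (add_le_add (h.t2 y q) (k.t2 y q))

theorem xf_sq {n : ℕ} (k : Fin n → ℝ) : (∑ i, |k i|) ^ 2 ≤ n * ∑ i, k i ^ 2 := by
  have h := sq_sum_le_card_mul_sum_sq (s := (Finset.univ : Finset (Fin n))) (f := fun i => |k i|)
  simp only [Finset.card_univ, Fintype.card_fin, sq_abs] at h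
  exact h

theorem xf_mul {n : ℕ} {f g : (Fin n → ℝ) → ℝ} (hf : XF_R f) (hg : XF_R g) :
    XF_R (fun y => f y * g y) := by
  obtain ⟨C, w, h⟩ := hf
  obtain ⟨D, v, k⟩ := hg
  have hn : (0 : ℝ) ≤ n := Nat.cast_nonneg n
  have hCD : 0 ≤ C * D := mul_nonneg h.c0 k.c0
  refine ⟨(n + 2) * (C * D), fun i y => w i y * g y + f y * v i y, ⟨by positivity, fun y => ?_,
    fun i y => ?_, fun y q => ?_, fun y q => ?_⟩⟩
  · rw [abs_mul]
    have := mul_le_mul (h.b0 y) (k.b0 y) (abs_nonneg _) h.c0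
    nlinarith
  · have e1 : |w i y * g y| ≤ C * D := by
      rw [abs_mul]; exact mul_le_mul (h.b1 i y) (k.b0 y) (abs_nonneg _) h.c0
    have e2 : |f y * v i y| ≤ C * D := by
      rw [abs_mul]; exact mul_le_mul (h.b0 y) (k.b1 i y) (abs_nonneg _) h.c0
    have := (abs_add_le (w i y * g y) (f y * v i y)).trans (add_le_add e1 e2)
    nlinarith
  · have e : f (y + q) * g (y + q) - f y * g y
        = (f (y + q) - f y) * g (y + q) + f y * (g (y + q) - g y) := by ring
    have hs : 0 ≤ ∑ i, |q i| := Finset.sum_nonneg fun i _ => abs_nonneg _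
    have e1 : |(f (y + q) - f y) * g (y + q)| ≤ (C * ∑ i, |q i|) * D := by
      rw [abs_mul]
      exact mul_le_mul (h.l1 y q) (k.b0 _) (abs_nonneg _) (mul_nonneg h.c0 hs)
    have e2 : |f y * (g (y + q) - g y)| ≤ C * (D * ∑ i, |q i|) := by
      rw [abs_mul]
      exact mul_le_mul (h.b0 y) (k.l1 y q) (abs_nonneg _) h.c0
    rw [e]
    have := (abs_add_le ((f (y + q) - f y) * g (y + q)) (f y * (g (y + q) - g y))).trans
      (add_le_add e1 e2)
    have h3 : 0 ≤ n * (C * D * ∑ i, |q i|) := mul_nonneg hn (mul_nonneg hCD hs)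
    nlinarith
  · have e0 : ∑ i, (w i y * g y + f y * v i y) * q i
        = (∑ i, w i y * q i) * g y + f y * ∑ i, v i y * q i := by
      rw [Finset.sum_mul, Finset.mul_sum, ← Finset.sum_add_distrib]
      exact Finset.sum_congr rfl fun i _ => by ring
    have e : f (y + q) * g (y + q) - f y * g y - ∑ i, (w i y * g y + f y * v i y) * q i
        = ((f (y + q) - f y) * (g (y + q) - g y)
          + (f (y + q) - f y - ∑ i, w i y * q i) * g y)
          + f y * (g (y + q) - g y - ∑ i, v i y * q i) := by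
      rw [e0]; ring
    have hs : 0 ≤ ∑ i, |q i| := Finset.sum_nonneg fun i _ => abs_nonneg _
    have hs2 : 0 ≤ ∑ i, q i ^ 2 := Finset.sum_nonneg fun i _ => sq_nonneg _
    have e1 : |(f (y + q) - f y) * (g (y + q) - g y)| ≤ (C * ∑ i, |q i|) * (D * ∑ i, |q i|) := by
      rw [abs_mul]
      exact mul_le_mul (h.l1 y q) (k.l1 y q) (abs_nonneg _) (mul_nonneg h.c0 hs)
    have e2 : |(f (y + q) - f y - ∑ i, w i y * q i) * g y| ≤ (C * ∑ i, q i ^ 2) * D := by
      rw [abs_mul]
      exact mul_le_mul (h.t2 y q) (k.b0 _) (abs_nonneg _) (mul_nonneg h.c0 hs2)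
    have e3 : |f y * (g (y + q) - g y - ∑ i, v i y * q i)| ≤ C * (D * ∑ i, q i ^ 2) := by
      rw [abs_mul]
      exact mul_le_mul (h.b0 y) (k.t2 y q) (abs_nonneg _) h.c0
    rw [e]
    have h4 := abs_add_le ((f (y + q) - f y) * (g (y + q) - g y)
          + (f (y + q) - f y - ∑ i, w i y * q i) * g y)
          (f y * (g (y + q) - g y - ∑ i, v i y * q i))
    have h5 := abs_add_le ((f (y + q) - f y) * (g (y + q) - g y))
          ((f (y + q) - f y - ∑ i, w i y * q i) * g y)
    have h6 : (C * ∑ i, |q i|) * (D * ∑ i, |q i|) ≤ C * D * (n * ∑ i, q i ^ 2) := by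
      have : (C * ∑ i, |q i|) * (D * ∑ i, |q i|) = C * D * (∑ i, |q i|) ^ 2 := by ring
      rw [this]
      exact mul_le_mul_of_nonneg_left (xf_sq q) hCD
    have h7 : (n + 2) * (C * D) * ∑ i, q i ^ 2
        = C * D * (n * ∑ i, q i ^ 2) + (C * ∑ i, q i ^ 2) * D + C * (D * ∑ i, q i ^ 2) := by
      ring
    rw [h7]
    linarith

theorem xf_sum {n : ℕ} {ι : Type} (s : Finset ι) (f : ι → (Fin n → ℝ) → ℝ)
    (h : ∀ a ∈ s, XF_R (f a)) : XF_R (fun y => ∑ a ∈ s, f a y) := by
  classical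
  induction s using Finset.induction_on with
  | empty => simpa using xf_const (n := n) 0
  | insert a s ha ih =>
    have e : (fun y => ∑ b ∈ insert a s, f b y) = fun y => f a y + ∑ b ∈ s, f b y := by
      funext y
      rw [Finset.sum_insert ha]
    rw [e]
    exact xf_add (h a (Finset.mem_insert_self a s))
      (ih fun b hb => h b (Finset.mem_insert_of_mem hb))

theorem xf_prod {n : ℕ} {ι : Type} (s : Finset ι) (f : ι → (Fin n → ℝ) → ℝ)
    (h : ∀ a ∈ s, XF_R (f a)) : XF_R (fun y => ∏ a ∈ s, f a y) := by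
  classical
  induction s using Finset.induction_on with
  | empty => simpa using xf_const (n := n) 1
  | insert a s ha ih =>
    have e : (fun y => ∏ b ∈ insert a s, f b y) = fun y => f a y * ∏ b ∈ s, f b y := by
      funext y
      rw [Finset.prod_insert ha]
    rw [e]
    exact xf_mul (h a (Finset.mem_insert_self a s))
      (ih fun b hb => h b (Finset.mem_insert_of_mem hb))

/-- a function of one coordinate with two bounded derivatives -/
theorem xf_coord {n : ℕ} (i : Fin n) (β β' β'' : ℝ → ℝ) (C : ℝ) (h0 : ∀ t, |β t| ≤ C)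
    (h1 : ∀ t, |β' t| ≤ C) (h2 : ∀ t, |β'' t| ≤ C) (d1 : ∀ t, HasDerivAt β (β' t) t)
    (d2 : ∀ t, HasDerivAt β' (β'' t) t) : XF_R (fun y : Fin n → ℝ => β (y i)) := by
  have hC : 0 ≤ C := (abs_nonneg _).trans (h0 0)
  have l1 : ∀ s t, |β t - β s| ≤ C * |t - s| := by
    intro s t
    have := convex_univ.norm_image_sub_le_of_norm_hasDerivWithin_le (f := β) (f' := β') (C := C)
      (s := (Set.univ : Set ℝ)) (fun x _ => (d1 x).hasDerivWithinAt) (fun x _ => h1 x)
      (Set.mem_univ s) (Set.mem_univ t)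
    exact this
  have l2 : ∀ s t, |β' t - β' s| ≤ C * |t - s| := by
    intro s t
    have := convex_univ.norm_image_sub_le_of_norm_hasDerivWithin_le (f := β') (f' := β'') (C := C)
      (s := (Set.univ : Set ℝ)) (fun x _ => (d2 x).hasDerivWithinAt) (fun x _ => h2 x)
      (Set.mem_univ s) (Set.mem_univ t)
    exact this
  have t2 : ∀ s t, |β t - β s - β' s * (t - s)| ≤ C * (t - s) ^ 2 := by
    intro s t
    have := (convex_uIcc s t).norm_image_sub_le_of_norm_hasDerivWithin_le
      (f := fun u => β u - β' s * (u - s)) (f' := fun u => β' u - β' s) (C := C * |t - s|)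
      (s := Set.uIcc s t)
      (fun x _ => by
        have h : HasDerivAt (fun u : ℝ => β' s * (u - s)) (β' s) x := by
          have := ((hasDerivAt_id x).sub_const s).const_mul (β' s)
          simpa using this
        exact ((d1 x).sub h).hasDerivWithinAt)
      (fun x hx => by
        have h := l2 s x
        have h' : |x - s| ≤ |t - s| := Set.abs_sub_left_of_mem_uIcc hx
        exact h.trans (mul_le_mul_of_nonneg_left h' hC))
      Set.left_mem_uIcc Set.right_mem_uIcc
    simp only [sub_self, mul_zero, sub_zero, Real.norm_eq_abs] at this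
    have e : β t - β' s * (t - s) - β s = β t - β s - β' s * (t - s) := by ring
    rw [e] at this
    have e2 : C * |t - s| * |t - s| = C * (t - s) ^ 2 := by
      rw [mul_assoc, ← sq, sq_abs]
    rw [e2] at this
    exact this
  refine ⟨C, fun j y => if j = i then β' (y i) else 0, ⟨hC, fun y => h0 _, fun j y => ?_,
    fun y q => ?_, fun y q => ?_⟩⟩
  · by_cases h : j = i
    · rw [if_pos h]; exact h1 _
    · rw [if_neg h, abs_zero]; exact hC
  · have h := l1 (y i) (y i + q i)
    have e : y i + q i - y i = q i := by ring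
    rw [e] at h
    refine h.trans (mul_le_mul_of_nonneg_left ?_ hC)
    exact Finset.single_le_sum (f := fun j => |q j|) (fun j _ => abs_nonneg _)
      (Finset.mem_univ i)
  · have e0 : ∑ j, (if j = i then β' (y i) else 0) * q j = β' (y i) * q i := by
      have : ∀ j, (if j = i then β' (y i) else 0) * q j = if j = i then β' (y i) * q j else 0 := by
        intro j
        by_cases h : j = i
        · rw [if_pos h, if_pos h]
        · rw [if_neg h, if_neg h, zero_mul]
      rw [Finset.sum_congr rfl fun j _ => this j, Finset.sum_ite_eq' Finset.univ i,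
        if_pos (Finset.mem_univ i)]
    have h := t2 (y i) (y i + q i)
    have e : y i + q i - y i = q i := by ring
    rw [e] at h
    show |β (y i + q i) - β (y i) - ∑ j, (if j = i then β' (y i) else 0) * q j| ≤ _
    rw [e0]
    refine h.trans (mul_le_mul_of_nonneg_left ?_ hC)
    exact Finset.single_le_sum (f := fun j => q j ^ 2) (fun j _ => sq_nonneg _)
      (Finset.mem_univ i)

/-! ### The atoms -/

/-- the weight of an atom -/
noncomputable def xf_E (r z t : ℝ) : ℝ := z * Real.exp (-(r * t ^ 2))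

theorem xf_E_pos {r z : ℝ} (hz : 0 < z) (t : ℝ) : 0 < xf_E r z t :=
  mul_pos hz (Real.exp_pos _)

theorem xf_E_le {r z : ℝ} (hr : 0 < r) (hz : 0 < z) (t : ℝ) : xf_E r z t ≤ z := by
  unfold xf_E
  have h : Real.exp (-(r * t ^ 2)) ≤ 1 := by
    rw [Real.exp_le_one_iff]
    have := mul_nonneg hr.le (sq_nonneg t)
    linarith
  nlinarith

theorem xf_E_t2 {r z : ℝ} (_hr : 0 < r) (hz : 0 < z) (t : ℝ) : r * t ^ 2 * xf_E r z t ≤ z := by
  unfold xf_E
  have h : r * t ^ 2 * Real.exp (-(r * t ^ 2)) ≤ 1 := by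
    rw [Real.exp_neg]
    have h1 := Real.add_one_le_exp (r * t ^ 2)
    have h2 := Real.exp_pos (r * t ^ 2)
    rw [← div_eq_mul_inv, div_le_one h2]
    linarith
  have : r * t ^ 2 * (z * Real.exp (-(r * t ^ 2))) = z * (r * t ^ 2 * Real.exp (-(r * t ^ 2))) := by
    ring
  rw [this]
  nlinarith

theorem xf_E_d (r z t : ℝ) : HasDerivAt (xf_E r z) (-(2 * r * t) * xf_E r z t) t := by
  have h1 : HasDerivAt (fun u : ℝ => -(r * u ^ 2)) (-(2 * r * t)) t := by
    have := ((hasDerivAt_pow 2 t).const_mul r).neg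
    refine this.congr_deriv ?_
    simp
    ring
  have h2 := (h1.exp).const_mul z
  refine h2.congr_deriv ?_
  unfold xf_E
  ring

theorem xf_atom {n : ℕ} (i : Fin n) {r z : ℝ} (hr : 0 < r) (hz : 0 < z) :
    XF_R (fun y : Fin n → ℝ => xf_E r z (y i) / (1 + xf_E r z (y i))) := by
  have hp : ∀ t, 0 < 1 + xf_E r z t := fun t => by have := xf_E_pos (r := r) hz t; linarith
  have hd1 : ∀ t, HasDerivAt (fun t => xf_E r z t / (1 + xf_E r z t))
      (-(2 * r * t) * xf_E r z t / (1 + xf_E r z t) ^ 2) t := by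
    intro t
    have h := (xf_E_d r z t).div ((xf_E_d r z t).const_add 1) (hp t).ne'
    refine h.congr_deriv ?_
    congr 1
    ring
  have hd2 : ∀ t, HasDerivAt (fun t => -(2 * r * t) * xf_E r z t / (1 + xf_E r z t) ^ 2)
      (((-(2 * r) * xf_E r z t + -(2 * r * t) * (-(2 * r * t) * xf_E r z t)) * (1 + xf_E r z t)
        - -(2 * r * t) * xf_E r z t * (2 * (-(2 * r * t) * xf_E r z t)))
        / (1 + xf_E r z t) ^ 3) t := by
    intro t
    have ha : HasDerivAt (fun u : ℝ => -(2 * r * u)) (-(2 * r)) t := by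
      have := ((hasDerivAt_id t).const_mul (2 * r)).neg
      refine this.congr_deriv ?_
      ring
    have hb := ha.mul (xf_E_d r z t)
    have hc := ((xf_E_d r z t).const_add 1).pow 2
    have h := hb.div hc (pow_ne_zero 2 (hp t).ne')
    refine h.congr_deriv ?_
    have hne := (hp t).ne'
    simp only [Pi.pow_apply, Pi.mul_apply]
    field_simp
    ring
  have hq : ∀ t, 1 ≤ 1 + xf_E r z t := fun t => by have := xf_E_pos (r := r) hz t; linarith
  have hrz := mul_pos hr hz
  have hz2 := mul_pos hz hz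
  have hK : 1 ≤ 1 + z + r * z + (6 * (r * z) * (1 + z) + 8 * (r * z) * z) := by
    have : 0 ≤ z + r * z + (6 * (r * z) * (1 + z) + 8 * (r * z) * z) := by positivity
    linarith
  refine xf_coord i _ _ _ (1 + z + r * z + (6 * (r * z) * (1 + z) + 8 * (r * z) * z)) ?_ ?_ ?_
    hd1 hd2
  · intro t
    have h1 := xf_E_pos (r := r) hz t
    rw [abs_of_nonneg (div_nonneg h1.le (hp t).le)]
    refine le_trans ?_ hK
    rw [div_le_one (hp t)]
    linarith
  · intro t
    have h1 := xf_E_pos (r := r) hz t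
    have h2 := xf_E_le (r := r) (z := z) hr hz t
    have h3 := xf_E_t2 (r := r) (z := z) hr hz t
    have h4 : |-(2 * r * t) * xf_E r z t / (1 + xf_E r z t) ^ 2|
        ≤ |-(2 * r * t) * xf_E r z t| := by
      rw [abs_div]
      refine div_le_self (abs_nonneg _) ?_
      rw [abs_of_nonneg (sq_nonneg _)]
      nlinarith [hq t]
    have h5 : |-(2 * r * t) * xf_E r z t| ≤ r * xf_E r z t + r * t ^ 2 * xf_E r z t := by
      have hrE := mul_pos hr h1
      rw [abs_le]
      constructor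
      · nlinarith [mul_nonneg hrE.le (sq_nonneg (t - 1)), mul_nonneg hrE.le (sq_nonneg (t + 1))]
      · nlinarith [mul_nonneg hrE.le (sq_nonneg (t - 1)), mul_nonneg hrE.le (sq_nonneg (t + 1))]
    have h6 : r * xf_E r z t ≤ r * z := mul_le_mul_of_nonneg_left h2 hr.le
    have h7 : 0 ≤ 6 * (r * z) * (1 + z) + 8 * (r * z) * z := by positivity
    linarith
  · intro t
    have h1 := xf_E_pos (r := r) hz t
    have h2 := xf_E_le (r := r) (z := z) hr hz t
    have h3 := xf_E_t2 (r := r) (z := z) hr hz t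
    have h3' : 0 ≤ r * t ^ 2 * xf_E r z t := by positivity
    set E := xf_E r z t with hE
    set A := r * t ^ 2 * E with hA
    have e : (-(2 * r) * E + -(2 * r * t) * (-(2 * r * t) * E)) * (1 + E)
        - -(2 * r * t) * E * (2 * (-(2 * r * t) * E))
        = (4 * r * A * (1 + E)) - (2 * r * E * (1 + E) + 8 * r * A * E) := by
      rw [hA]; ring
    have h4 : |((-(2 * r) * E + -(2 * r * t) * (-(2 * r * t) * E)) * (1 + E)
        - -(2 * r * t) * E * (2 * (-(2 * r * t) * E))) / (1 + E) ^ 3|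
        ≤ |(4 * r * A * (1 + E)) - (2 * r * E * (1 + E) + 8 * r * A * E)| := by
      rw [e, abs_div]
      refine div_le_self (abs_nonneg _) ?_
      rw [abs_of_nonneg (pow_nonneg (hp t).le 3)]
      exact one_le_pow₀ (hq t)
    refine h4.trans ?_
    have hrA : r * A ≤ r * z := mul_le_mul_of_nonneg_left h3 hr.le
    have hrE : r * E ≤ r * z := mul_le_mul_of_nonneg_left h2 hr.le
    have hrA0 : 0 ≤ r * A := mul_nonneg hr.le h3'
    have hrE0 : 0 ≤ r * E := mul_nonneg hr.le h1.le
    have g1 : r * A * (1 + E) ≤ r * z * (1 + z) :=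
      mul_le_mul hrA (by linarith) (by linarith) hrz.le
    have g2 : r * E * (1 + E) ≤ r * z * (1 + z) :=
      mul_le_mul hrE (by linarith) (by linarith) hrz.le
    have g3 : r * A * E ≤ r * z * z := mul_le_mul hrA h2 h1.le hrz.le
    have g1' : 0 ≤ r * A * (1 + E) := mul_nonneg hrA0 (by linarith)
    have g2' : 0 ≤ r * E * (1 + E) := mul_nonneg hrE0 (by linarith)
    have g3' : 0 ≤ r * A * E := mul_nonneg hrA0 h1.le
    have g4 : 0 < r * z * (1 + z) := mul_pos hrz (by linarith)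
    have g5 : 0 < r * z * z := mul_pos hrz hz
    rw [abs_le]
    constructor
    · nlinarith
    · nlinarith

/-! ### The finite model -/

section

variable {n : ℕ} {Y : Type} [Fintype Y] [DecidableEq Y]

omit [Fintype Y] [DecidableEq Y] in
theorem xf_zw {z : Y → ℝ} (hz : ∀ y, 0 < z y) (η : Finset (Fin n × Y)) : 0 < zw z η :=
  Finset.prod_pos fun x _ => hz x.2

theorem xf_Z1 (δ : ℝ) (r : Y → ℝ) {z : Y → ℝ} (hz : ∀ y, 0 < z y) (y : Fin n → ℝ) :
    0 < Zy δ r z (fun _ => 1) y := by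
  unfold Zy
  refine Finset.sum_pos (fun η _ => ?_) Finset.univ_nonempty
  rw [mul_one]
  exact mul_pos (xf_zw hz η) (Real.exp_pos _)

theorem xf_Zc (δ : ℝ) (r z : Y → ℝ) (F : Finset (Fin n × Y) → ℝ) :
    Continuous (Zy δ r z F) := by
  unfold Zy
  fun_prop

theorem xf_Ec (δ : ℝ) (r : Y → ℝ) {z : Y → ℝ} (hz : ∀ y, 0 < z y)
    (F : Finset (Fin n × Y) → ℝ) : Continuous (EY δ r z F) := by
  have : EY δ r z F = fun y => Zy δ r z F y / Zy δ r z (fun _ => 1) y := rfl
  rw [this]
  exact (xf_Zc δ r z F).div (xf_Zc δ r z _) fun y => (xf_Z1 δ r hz y).ne'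

theorem xf_tau (δ : ℝ) (r : Y → ℝ) (η : Finset (Fin n × Y)) (y : Fin n → ℝ) :
    ∑ i, tau δ r η i * y i ^ 2 = δ * ∑ i, y i ^ 2 + ∑ x ∈ η, r x.2 * y x.1 ^ 2 := by
  have e : ∑ x ∈ η, r x.2 * y x.1 ^ 2
      = ∑ i, ∑ c, if (i, c) ∈ η then r c * y i ^ 2 else 0 := by
    rw [← Fintype.sum_prod_type' (f := fun i c => if (i, c) ∈ η then r c * y i ^ 2 else 0)]
    have e0 : ∑ x : Fin n × Y, (if x ∈ η then r x.2 * y x.1 ^ 2 else 0)
        = ∑ x ∈ η, r x.2 * y x.1 ^ 2 := by
      rw [Finset.sum_ite_mem, Finset.univ_inter]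
    exact e0.symm
  rw [e, Finset.mul_sum, ← Finset.sum_add_distrib]
  refine Finset.sum_congr rfl fun i _ => ?_
  unfold tau
  rw [add_mul, Finset.sum_mul]
  congr 1
  refine Finset.sum_congr rfl fun c _ => ?_
  by_cases h : (i, c) ∈ η
  · rw [if_pos h, if_pos h]
  · rw [if_neg h, if_neg h, zero_mul]

theorem xf_w (δ : ℝ) (r z : Y → ℝ) (η : Finset (Fin n × Y)) (y : Fin n → ℝ) :
    zw z η * Real.exp (-∑ i, tau δ r η i * y i ^ 2)
      = Real.exp (-(δ * ∑ i, y i ^ 2)) * ∏ x ∈ η, xf_E (r x.2) (z x.2) (y x.1) := by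
  rw [xf_tau, neg_add, Real.exp_add, ← Finset.sum_neg_distrib, Real.exp_sum]
  unfold zw xf_E
  rw [Finset.prod_mul_distrib]
  ring

theorem xf_EY (δ : ℝ) (r : Y → ℝ) {z : Y → ℝ} (hz : ∀ y, 0 < z y)
    (F : Finset (Fin n × Y) → ℝ) (y : Fin n → ℝ) :
    EY δ r z F y = ∑ η : Finset (Fin n × Y), F η * ∏ x : Fin n × Y,
      if x ∈ η then xf_E (r x.2) (z x.2) (y x.1) / (1 + xf_E (r x.2) (z x.2) (y x.1))
      else 1 - xf_E (r x.2) (z x.2) (y x.1) / (1 + xf_E (r x.2) (z x.2) (y x.1)) := by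
  have hp : ∀ x : Fin n × Y, 0 < 1 + xf_E (r x.2) (z x.2) (y x.1) := fun x => by
    have := xf_E_pos (r := r x.2) (hz x.2) (y x.1)
    linarith
  have hP : 0 < ∏ x : Fin n × Y, (1 + xf_E (r x.2) (z x.2) (y x.1)) :=
    Finset.prod_pos fun x _ => hp x
  have e1 : Zy δ r z (fun _ => 1) y = Real.exp (-(δ * ∑ i, y i ^ 2))
      * ∏ x : Fin n × Y, (1 + xf_E (r x.2) (z x.2) (y x.1)) := by
    unfold Zy
    rw [Finset.prod_one_add, Finset.powerset_univ, Finset.mul_sum]
    refine Finset.sum_congr rfl fun η _ => ?_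
    rw [mul_one]
    exact xf_w δ r z η y
  unfold EY
  rw [e1]
  unfold Zy
  rw [Finset.sum_div]
  refine Finset.sum_congr rfl fun η _ => ?_
  rw [xf_w]
  have e2 : (∏ x : Fin n × Y,
      if x ∈ η then xf_E (r x.2) (z x.2) (y x.1) / (1 + xf_E (r x.2) (z x.2) (y x.1))
      else 1 - xf_E (r x.2) (z x.2) (y x.1) / (1 + xf_E (r x.2) (z x.2) (y x.1)))
      = (∏ x ∈ η, xf_E (r x.2) (z x.2) (y x.1))
        / ∏ x : Fin n × Y, (1 + xf_E (r x.2) (z x.2) (y x.1)) := by
    have e3 : ∀ x : Fin n × Y,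
        (if x ∈ η then xf_E (r x.2) (z x.2) (y x.1) / (1 + xf_E (r x.2) (z x.2) (y x.1))
        else 1 - xf_E (r x.2) (z x.2) (y x.1) / (1 + xf_E (r x.2) (z x.2) (y x.1)))
        = (if x ∈ η then xf_E (r x.2) (z x.2) (y x.1) else 1)
          / (1 + xf_E (r x.2) (z x.2) (y x.1)) := by
      intro x
      by_cases h : x ∈ η
      · rw [if_pos h, if_pos h]
      · rw [if_neg h, if_neg h, eq_div_iff (hp x).ne', sub_mul, div_mul_cancel₀ _ (hp x).ne']
        ring
    rw [Finset.prod_congr rfl fun x _ => e3 x, Finset.prod_div_distrib]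
    congr 1
    rw [Finset.prod_ite_mem, Finset.univ_inter]
  rw [e2]
  have hx := (Real.exp_pos (-(δ * ∑ i, y i ^ 2))).ne'
  field_simp

theorem xf_reg (δ : ℝ) {r z : Y → ℝ} (hr : ∀ y, 0 < r y) (hz : ∀ y, 0 < z y)
    (F : Finset (Fin n × Y) → ℝ) : XF_R (EY δ r z F) := by
  have e : EY δ r z F = fun y => ∑ η : Finset (Fin n × Y), F η * ∏ x : Fin n × Y,
      if x ∈ η then xf_E (r x.2) (z x.2) (y x.1) / (1 + xf_E (r x.2) (z x.2) (y x.1))
      else 1 - xf_E (r x.2) (z x.2) (y x.1) / (1 + xf_E (r x.2) (z x.2) (y x.1)) := by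
    funext y
    exact xf_EY δ r hz F y
  rw [e]
  refine xf_sum _ _ fun η _ => xf_mul (xf_const _) (xf_prod _ _ fun x _ => ?_)
  by_cases h : x ∈ η
  · simp only [if_pos h]
    exact xf_atom x.1 (hr x.2) (hz x.2)
  · simp only [if_neg h]
    have h1 := xf_mul (xf_const (n := n) (-1)) (xf_atom (n := n) x.1 (hr x.2) (hz x.2))
    have h2 := xf_add (xf_const (n := n) 1) h1
    have e2 : (fun y : Fin n → ℝ => 1 - xf_E (r x.2) (z x.2) (y x.1)
        / (1 + xf_E (r x.2) (z x.2) (y x.1)))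
        = fun y => 1 + -1 * (xf_E (r x.2) (z x.2) (y x.1)
        / (1 + xf_E (r x.2) (z x.2) (y x.1))) := by
      funext y
      ring
    rw [e2]
    exact h2

theorem xf_dZ (δ : ℝ) (r z : Y → ℝ) (F : Finset (Fin n × Y) → ℝ) (y : Fin n → ℝ) (i : Fin n) :
    HasDerivAt (fun s : ℝ => Zy δ r z F (y + Pi.single i s))
      (-(2 * y i) * Zy δ r z (fun η => F η * tau δ r η i) y) 0 := by
  have e : ∀ (η : Finset (Fin n × Y)) (s : ℝ),
      ∑ j, tau δ r η j * (y + Pi.single i s : Fin n → ℝ) j ^ 2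
      = ∑ j, tau δ r η j * y j ^ 2 + tau δ r η i * (2 * y i * s + s ^ 2) := by
    intro η s
    have e1 : ∀ j, tau δ r η j * (y + Pi.single i s : Fin n → ℝ) j ^ 2
        = tau δ r η j * y j ^ 2 + if j = i then tau δ r η i * (2 * y i * s + s ^ 2) else 0 := by
      intro j
      by_cases h : j = i
      · subst h
        rw [if_pos rfl, Pi.add_apply, Pi.single_eq_same]
        ring
      · rw [if_neg h, Pi.add_apply, Pi.single_eq_of_ne h, add_zero, add_zero]
    rw [Finset.sum_congr rfl fun j _ => e1 j, Finset.sum_add_distrib,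
      Finset.sum_ite_eq' Finset.univ i, if_pos (Finset.mem_univ i)]
  have e2 : (fun s : ℝ => Zy δ r z F (y + Pi.single i s))
      = fun s => ∑ η : Finset (Fin n × Y), zw z η
        * Real.exp (-(∑ j, tau δ r η j * y j ^ 2 + tau δ r η i * (2 * y i * s + s ^ 2))) * F η := by
    funext s
    unfold Zy
    exact Finset.sum_congr rfl fun η _ => by rw [e]
  rw [e2]
  have h := HasDerivAt.fun_sum (u := (Finset.univ : Finset (Finset (Fin n × Y))))
    (A := fun η s => zw z η
        * Real.exp (-(∑ j, tau δ r η j * y j ^ 2 + tau δ r η i * (2 * y i * s + s ^ 2))) * F η)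
    (A' := fun η => zw z η * Real.exp (-∑ j, tau δ r η j * y j ^ 2)
      * (F η * (-(2 * y i) * tau δ r η i))) (x := 0)
    (fun η _ => by
      have h1 : HasDerivAt (fun s : ℝ => -(∑ j, tau δ r η j * y j ^ 2
          + tau δ r η i * (2 * y i * s + s ^ 2))) (-(tau δ r η i * (2 * y i))) 0 := by
        have := ((((hasDerivAt_id (0 : ℝ)).const_mul (2 * y i)).add
          (hasDerivAt_pow 2 (0 : ℝ))).const_mul (tau δ r η i)).const_add
          (∑ j, tau δ r η j * y j ^ 2) |>.neg
        refine this.congr_deriv ?_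
        simp
      have h2 := ((h1.exp).const_mul (zw z η)).mul_const (F η)
      refine h2.congr_deriv ?_
      simp only [mul_zero, ne_eq, OfNat.ofNat_ne_zero, not_false_eq_true, zero_pow, add_zero]
      ring)
  refine h.congr_deriv ?_
  unfold Zy
  rw [Finset.mul_sum]
  exact Finset.sum_congr rfl fun η _ => by ring

theorem xf_dE (δ : ℝ) (r : Y → ℝ) {z : Y → ℝ} (hz : ∀ y, 0 < z y)
    (F : Finset (Fin n × Y) → ℝ) (y : Fin n → ℝ) (i : Fin n) :
    HasDerivAt (fun s : ℝ => EY δ r z F (y + Pi.single i s)) (-(2 * y i * cy δ r z F y i)) 0 := by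
  have hZ := xf_Z1 δ r hz y
  have h1 := xf_dZ δ r z F y i
  have h2 := xf_dZ δ r z (fun _ => 1) y i
  have hs : (y + Pi.single i (0 : ℝ) : Fin n → ℝ) = y := by
    rw [Pi.single_zero, add_zero]
  have h := h1.div h2 (by simp only [hs]; exact hZ.ne')
  refine h.congr_deriv ?_
  simp only [hs, one_mul]
  unfold cy EY
  field_simp
  ring

theorem xf_uniq {f : (Fin n → ℝ) → ℝ} {C : ℝ} {w : Fin n → (Fin n → ℝ) → ℝ} (h : XF_D f C w)
    (y : Fin n → ℝ) (i : Fin n) :
    HasDerivAt (fun s : ℝ => f (y + Pi.single i s)) (w i y) 0 := by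
  have hb : ∀ s : ℝ, |f (y + Pi.single i s) - f y - w i y * s| ≤ C * s ^ 2 := by
    intro s
    have h1 := h.t2 y (Pi.single i s)
    have e1 : ∑ j, w j y * (Pi.single i s : Fin n → ℝ) j = w i y * s := by
      rw [Finset.sum_eq_single i]
      · rw [Pi.single_eq_same]
      · intro j _ hj
        rw [Pi.single_eq_of_ne hj, mul_zero]
      · intro hi
        exact absurd (Finset.mem_univ i) hi
    have e2 : ∑ j, (Pi.single i s : Fin n → ℝ) j ^ 2 = s ^ 2 := by
      rw [Finset.sum_eq_single i]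
      · rw [Pi.single_eq_same]
      · intro j _ hj
        rw [Pi.single_eq_of_ne hj]
        norm_num
      · intro hi
        exact absurd (Finset.mem_univ i) hi
    rw [e1, e2] at h1
    exact h1
  rw [hasDerivAt_iff_isLittleO_nhds_zero]
  have hs : (y + Pi.single i (0 : ℝ) : Fin n → ℝ) = y := by
    rw [Pi.single_zero, add_zero]
  have hO : (fun s : ℝ => f (y + Pi.single i (0 + s)) - f (y + Pi.single i 0) - s • w i y)
      =O[𝓝 0] fun s : ℝ => s ^ 2 := by
    refine Asymptotics.IsBigO.of_bound C (Filter.Eventually.of_forall fun s => ?_)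
    rw [zero_add, hs, smul_eq_mul, mul_comm s, Real.norm_eq_abs, Real.norm_eq_abs,
      abs_of_nonneg (sq_nonneg s)]
    exact hb s
  refine hO.trans_isLittleO ?_
  have := Asymptotics.isLittleO_pow_id (𝕜 := ℝ) (n := 2) (by norm_num)
  exact this

end

theorem st_XF : ST_XF := by
  intro n Y _ _ s ζ δ r z hM F
  have hr := hM.r0
  have hz := hM.z0
  have hE := xf_Ec (n := n) δ r hz
  refine ⟨hE F, fun i => ?_, ?_⟩
  · have h1 := hE F
    have h2 := hE (fun η => F η * tau δ r η i)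
    have h3 := hE (fun η => tau δ r η i)
    unfold cy
    exact ((continuous_const.mul (continuous_apply i)).mul (h2.sub (h1.mul h3))).neg
  · obtain ⟨C, w, h⟩ := xf_reg (n := n) δ hr hz F
    have hw : ∀ i y, w i y = -(2 * y i * cy δ r z F y i) := fun i y =>
      (xf_uniq h y i).unique (xf_dE δ r hz F y i)
    refine ⟨C, h.c0, h.b0, fun i y => ?_, fun y k => ?_⟩
    · rw [← hw i y]
      exact h.b1 i y
    · have e : ∑ i, -(2 * y i * cy δ r z F y i) * k i = ∑ i, w i y * k i :=
        Finset.sum_congr rfl fun i _ => by rw [hw i y]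
      rw [e]
      exact h.t2 y k

end Pool.Agent.Helper75.GR
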