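import Pool.Agent.Helper44.GH.All
import Pool.Agent.Helper75.GR.SLV
import Pool.Agent.Helper75.GR.GPO
import Pool.Agent.Helper75.GR.BES
import Pool.Agent.Helper75.GR.XF
import Pool.Agent.Helper75.GR.VD
import Pool.Agent.Helper75.GR.H1I
import Pool.Agent.Helper75.GR.DIR
import Pool.Agent.Helper75.GR.VAR
import Pool.Agent.Helper75.GR.DMS
import Pool.Agent.Helper75.GR.CTJ
import Pool.Agent.Helper75.GR.BPV
import Pool.Agent.Helper75.GR.CRT
import Pool.Agent.Helper75.GR.GSP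
import Pool.Agent.Helper75.GR.GSM
import Pool.Agent.Helper75.GR.CMP
import Pool.Agent.Helper75.GR.KER
import Pool.Agent.Helper75.GR.FIS
import Pool.Agent.Helper75.GR.FST
import Pool.Agent.Helper75.GR.MAIN
import Pool.Agent.Helper75.GR.MCV
import Pool.Agent.Helper75.GR.ROW
import Pool.Agent.Helper75.GR.MK
import Pool.Agent.Helper75.GR.MQ
import Pool.Agent.Helper83.GR.DPO
import Pool.Agent.Helper83.GR.PM
import Pool.Agent.Helper83.GR.LOC
import Pool.Agent.Helper70.GR.LAW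
import Pool.Agent.Helper70.GR.TWO
import Pool.Agent.Helper52.GR.MDI
import Pool.Agent.Helper52.GR.Gamp
import Pool.Agent.Helper55.GR.FDP
import Pool.Agent.Helper9.GR.MOD

/-! Assembly of the face inequality for `3/2 ≤ p < 2`. -/

namespace Pool.Agent.Helper75.GR

open Pool.Agent.Helper44.GH (all_ES all_MAF all_GL1 all_GL3 all_MPL all_CVB all_RLZ)

theorem all_GPO : ST_GPO := st_GPO st_SLV

theorem all_BES : ST_BES := st_BES all_GPO all_ES

theorem all_VD : ST_VD := st_VD Pool.Agent.Helper2.GH.PE st_SLV all_GPO all_ES Pool.Agent.Helper44.GH.st_BL st_XF all_BES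
  Pool.Agent.Helper44.GH.st_UPD

theorem all_DIR : ST_DIR := st_DIR Pool.Agent.Helper44.GH.st_UPD Pool.Agent.Helper44.GH.st_SGF
  st_H1I Pool.Agent.Helper44.GF.st_GNZ

theorem all_VAR : ST_VAR := st_VAR all_VD all_DIR Pool.Agent.Helper44.GH.st_SGF
  Pool.Agent.Helper44.GH.st_UPD

theorem all_DPO : ST_DPO := st_DPO (Pool.Agent.Helper44.GF.st_BOCH Pool.Agent.Helper44.GF.st_GNZ)
  (Pool.Agent.Helper44.GF.st_GAP Pool.Agent.Helper44.GF.st_GNZ) Pool.Agent.Helper44.GH.st_UPD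

theorem all_PM : ST_PM := st_PM Pool.Agent.Helper2.GH.PE st_SLV Pool.Agent.Helper44.GH.st_CNT all_MAF
  Pool.Agent.Helper44.GH.st_UPD Pool.Agent.Helper44.GH.st_GI3 all_GL3 all_DPO

theorem all_FDP : ST_FDP := st_FDP Pool.Agent.Helper44.GH.st_UPD

theorem all_MK : ST_MK := st_MK Pool.Agent.Helper44.GH.st_UPD all_GL1

theorem all_MQ : ST_MQ := st_MQ Pool.Agent.Helper2.GH.PE st_SLV

theorem all_MDI : ST_MDI :=
  st_MDI Pool.Agent.Helper44.GH.st_UPD all_MK all_MQ all_GPO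

theorem all_MCV : ST_MCV := st_MCV all_FDP all_MDI st_MOD

theorem all_LAW1 : ST_LAW1 :=
  st_LAW1 all_FDP Pool.Agent.Helper70.GR.st_LAW0 st_GAM3 all_MCV st_SLV

theorem all_ROW : ST_ROW := st_ROW st_SLV all_PM all_LAW1

theorem all_TWO : ST_TWO := Pool.Agent.Helper70.GR.st_TWO Pool.Agent.Helper44.GH.st_SGF
  Pool.Agent.Helper44.GH.st_CNT

theorem all_LOC : ST_LOC := st_LOC all_ROW all_TWO all_MAF
  Pool.Agent.Helper44.GH.st_CNT all_VAR all_DIR Pool.Agent.Helper44.GH.st_SGF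

theorem all_DMS : ST_DMS := st_DMS Pool.Agent.Helper44.GH.st_DQ Pool.Agent.Helper44.GH.st_CNT

theorem all_BPV : ST_BPV := st_BPV Pool.Agent.Helper44.GH.st_CNT

theorem all_CRT : ST_CRT := st_CRT all_BPV

theorem all_GSP : ST_GSP := st_GSP all_DMS st_CTJ all_BPV

theorem all_GSM : ST_GSM := st_GSM all_DMS st_CTJ

theorem all_CMP : ST_CMP := st_CMP st_CTJ Pool.Agent.Helper44.GH.st_CNT
  Pool.Agent.Helper44.GN.all_RHO Pool.Agent.Helper44.GN.all_FCT

theorem all_KER : ST_KER := st_KER all_LOC all_MPL all_GSP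
  all_GSM all_CMP all_CRT all_BPV Pool.Agent.Helper44.GH.st_INV

theorem all_FIS : ST_FIS := st_FIS all_KER all_CVB all_BPV
  Pool.Agent.Helper44.GF.st_LINK

theorem all_FST : ST_FST := st_FST Pool.Agent.Helper44.GF.st_GH1
  Pool.Agent.Helper44.GN.st_FLM all_FIS Pool.Agent.Helper44.GH.st_GLZ all_RLZ
  Pool.Agent.Helper44.GH.st_MMP

theorem all_MAIN : ST_MAIN := st_MAIN
  (Pool.Agent.Helper44.GF.st_HFACE (Pool.Agent.Helper44.GF.st_HBALL Pool.Agent.Helper44.GF.st_ISOD))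
  all_FST

end Pool.Agent.Helper75.GR
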