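import Pool.Agent.Helper75.GR.Stmts

open Finset MeasureTheory Filter Topology Matrix
open scoped ENNReal ContDiff

namespace Pool.Agent.Helper75.GR

open Pool.Agent.Helper44.GF Pool.Agent.Helper44.GN Pool.Agent.Helper44.GH

theorem gsp_inj {n m : ℕ} (V : Matrix (Fin n) (Fin m) ℝ) (B : Matrix (Fin m) (Fin n) ℝ)
    (hB : B * V = 1) (w : KB B) :
    Function.Injective (V + Matrix.of (w : Fin n → Fin m → ℝ)).mulVec := by
  have h1 : B * (V + Matrix.of (w : Fin n → Fin m → ℝ)) = 1 := by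
    have h2 : B * Matrix.of (w : Fin n → Fin m → ℝ) = 0 := w.2
    rw [Matrix.mul_add, hB, h2, add_zero]
  intro x y hxy
  have h3 := congrArg (fun v => B.mulVec v) hxy
  simpa [Matrix.mulVec_mulVec, h1] using h3

theorem gsp_aux (hD : ST_DMS) (hC : ST_CTJ) (n m : ℕ) (Y : Type) [Fintype Y] [DecidableEq Y]
    (s ζ δ : ℝ) (r z : Y → ℝ) (V : Matrix (Fin n) (Fin m) ℝ) (B : Matrix (Fin m) (Fin n) ℝ)
    (hM : MD s ζ δ r z) (hB : B * V = 1) (w e : KB B)
    (he : 0 < M1 (V + Matrix.of (w : Fin n → Fin m → ℝ)) (Matrix.of (e : Fin n → Fin m → ℝ))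
      δ r z) : SLP (GB B V δ r z) w := by
  obtain ⟨-, -, hc1, -⟩ := hC n m Y s ζ δ r z hM
  set f : KB B → ℝ := fun v => M1 (V + Matrix.of (v : Fin n → Fin m → ℝ))
    (Matrix.of (e : Fin n → Fin m → ℝ)) δ r z with hf
  have hfc : Continuous f := by
    have hg : Continuous fun v : KB B =>
        ((V + Matrix.of (v : Fin n → Fin m → ℝ), Matrix.of (e : Fin n → Fin m → ℝ)) :
          Matrix (Fin n) (Fin m) ℝ × Matrix (Fin n) (Fin m) ℝ) := by
      refine Continuous.prodMk ?_ continuous_const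
      refine continuous_const.add ?_
      refine continuous_matrix fun i j => ?_
      have : Continuous fun v : KB B => (v : Fin n → Fin m → ℝ) := continuous_subtype_val
      exact (continuous_apply j).comp ((continuous_apply i).comp this)
    have := hc1.comp_continuous hg (fun v => gsp_inj V B hB v)
    exact this
  obtain ⟨ρ, hρ, hρ'⟩ : ∃ ρ > 0, ∀ x : KB B, ‖x - w‖ < ρ → f w / 2 < f x := by
    have h1 : ∀ᶠ x in 𝓝 w, f w / 2 < f x :=
      (hfc.tendsto w).eventually (lt_mem_nhds (by have : 0 < f w := he; linarith))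
    obtain ⟨ρ, hρ, h2⟩ := Metric.eventually_nhds_iff.1 h1
    exact ⟨ρ, hρ, fun x hx => h2 (by rwa [dist_eq_norm])⟩
  have he0 : 0 ≤ ‖e‖ := norm_nonneg _
  refine ⟨e, ρ / (2 * (1 + ‖e‖)), f w / 2, by positivity, by have : 0 < f w := he; linarith, ?_⟩
  intro v hv t ht0 ht1
  set R := ρ / (2 * (1 + ‖e‖)) with hR
  have hR0 : 0 < R := by positivity
  have hRe : R * (1 + ‖e‖) = ρ / 2 := by rw [hR]; field_simp
  set g : ℝ → ℝ := fun u => GB B V δ r z (v + u • e) with hg
  have hder : ∀ u : ℝ, HasDerivAt g (f (v + u • e)) u := by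
    intro u
    have h1 := (hD n m Y s ζ δ r z (V + Matrix.of ((v + u • e : KB B) : Fin n → Fin m → ℝ))
      (Matrix.of (e : Fin n → Fin m → ℝ)) hM (gsp_inj V B hB (v + u • e))).1
    have h2 : HasDerivAt (fun x : ℝ => x - u) 1 u := by
      simpa using (hasDerivAt_id u).sub_const u
    have h3 : HasDerivAt (fun x : ℝ => MS ((V + Matrix.of ((v + u • e : KB B) :
        Fin n → Fin m → ℝ)) + (x - u) • (Matrix.of (e : Fin n → Fin m → ℝ))) δ r z)
        (f (v + u • e)) u := by
      have h4 : HasDerivAt (fun t : ℝ => MS ((V + Matrix.of ((v + u • e : KB B) :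
        Fin n → Fin m → ℝ)) + t • (Matrix.of (e : Fin n → Fin m → ℝ))) δ r z)
        (f (v + u • e)) ((fun x : ℝ => x - u) u) := by
        show HasDerivAt _ _ (u - u)
        rw [sub_self]; exact h1
      have := HasDerivAt.comp (h := fun x : ℝ => x - u) u h4 h2
      simpa [Function.comp_def] using this
    have h5 : (fun x : ℝ => MS ((V + Matrix.of ((v + u • e : KB B) :
        Fin n → Fin m → ℝ)) + (x - u) • (Matrix.of (e : Fin n → Fin m → ℝ))) δ r z) = g := by
      funext x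
      simp only [hg, GB]
      congr 1
      ext i j
      simp only [Matrix.add_apply, Matrix.of_apply, Matrix.smul_apply, Submodule.coe_add,
        Submodule.coe_smul, Pi.add_apply, Pi.smul_apply, smul_eq_mul]
      ring
    rw [h5] at h3
    exact h3
  have hlow : ∀ u : ℝ, 0 ≤ u → u ≤ R → f w / 2 ≤ f (v + u • e) := by
    intro u hu0 hu1
    refine (hρ' _ ?_).le
    calc ‖v + u • e - w‖ = ‖(v - w) + u • e‖ := by congr 1; abel
      _ ≤ ‖v - w‖ + ‖u • e‖ := norm_add_le _ _
      _ = ‖v - w‖ + u * ‖e‖ := by rw [norm_smul, Real.norm_of_nonneg hu0]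
      _ < R + R * ‖e‖ := by
          have := mul_le_mul_of_nonneg_right hu1 he0
          linarith
      _ = ρ / 2 := by rw [← hRe]; ring
      _ < ρ := by linarith
  have hmv := Convex.mul_sub_le_image_sub_of_le_deriv (convex_Icc (0 : ℝ) R)
    (f := g) (fun u _ => (hder u).continuousAt.continuousWithinAt)
    (fun u _ => (hder u).differentiableAt.differentiableWithinAt) (C := f w / 2)
    (fun u hu => by
      rw [interior_Icc] at hu
      rw [(hder u).deriv]
      exact hlow u hu.1.le hu.2.le) 0 ⟨le_rfl, hR0.le⟩ t ⟨ht0, ht1⟩ ht0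
  have hg0 : g 0 = GB B V δ r z v := by simp [hg]
  rw [hg0] at hmv
  simp only [sub_zero] at hmv
  show GB B V δ r z v + f w / 2 * t ≤ g t
  linarith

theorem st_GSP (hD : ST_DMS) (hC : ST_CTJ) (hP : ST_BPV) : ST_GSP := by
  intro n m Y _ _ s ζ δ r z V B hM hB w ⟨e, he⟩
  rcases lt_or_gt_of_ne he with h | h
  · refine gsp_aux hD hC n m Y s ζ δ r z V B hM hB w (-e) ?_
    have hi := gsp_inj V B hB w
    obtain ⟨-, -, h3⟩ := hP n m Y s ζ δ r z (V + Matrix.of (w : Fin n → Fin m → ℝ)) hM hi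
    have h4 := (h3 (Matrix.of (e : Fin n → Fin m → ℝ))).2.1
    have h5 := (h3 (Matrix.of ((-e : KB B) : Fin n → Fin m → ℝ))).2.1
    have h6 : Matrix.of ((-e : KB B) : Fin n → Fin m → ℝ)
        = -Matrix.of (e : Fin n → Fin m → ℝ) := by
      ext i j; simp
    rw [h5, h6, Matrix.mul_neg, Matrix.trace_neg]
    rw [h4] at h
    linarith
  · exact gsp_aux hD hC n m Y s ζ δ r z V B hM hB w e h

end Pool.Agent.Helper75.GR
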