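import Pool.Agent.Helper44.GH.Stmts

/-!
# Face inequality for polyhedral cycles in `ℓ^p_n`, `3/2 ≤ p < 2`, all dimensions (MP_d210aa_gt)

The standing hypotheses and the statements of all modules.
-/

open Finset MeasureTheory Filter Topology Matrix
open scoped ENNReal ContDiff

namespace Pool.Agent.Helper75.GR

open Pool.Agent.Helper44.GF Pool.Agent.Helper44.GN Pool.Agent.Helper44.GH

/-- The standing hypotheses on the parameters. -/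
structure MD {Y : Type} [Fintype Y] (s ζ δ : ℝ) (r z : Y → ℝ) : Prop where
  s0 : 0 < s
  k0 : 0 < ζ
  k1 : ζ ≤ 1 / 1000
  d0 : 0 < δ
  r0 : ∀ y, 0 < r y
  z0 : ∀ y, 0 < z y
  z1 : ∀ y, z y ≤ ζ
  h1 : H1 δ r z s
  hs : (1 + ζ) * s ≤ 1 / 4

/-! ## A. The landed modules with the new constants -/

/-- The derivatives of the exponent. -/
def ST_SLV : Prop :=
  ∀ (Y : Type) [Fintype Y] (s ζ δ : ℝ) (r z : Y → ℝ), MD s ζ δ r z → ∀ u : ℝ, 0 ≤ u →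
    HasDerivAt (lam δ r z) (ld δ r z u) u ∧ HasDerivAt (ld δ r z) (-ldd r z u) u ∧
    δ ≤ ld δ r z u ∧ ld δ r z u ≤ ld δ r z 0 ∧ 0 ≤ ldd r z u ∧ ldd r z u ≤ tz r z u ∧
    u * tz r z u ≤ 1 / 4 * ld δ r z u ∧ δ * u ≤ lam δ r z u ∧
    (∀ v, u ≤ v → ld δ r z v ≤ ld δ r z u) ∧
    (∀ v, u ≤ v → u ^ (1 / 2 : ℝ) * ld δ r z (u ^ 2) ≤ v ^ (1 / 2 : ℝ) * ld δ r z (v ^ 2))

/-- The function `lam (t ^ 2)`. -/
def ST_GPO : Prop :=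
  ∀ (Y : Type) [Fintype Y] (s ζ δ : ℝ) (r z : Y → ℝ), MD s ζ δ r z →
    Continuous (gg δ r z) ∧ Continuous (Dg δ r z) ∧ (∀ t, 1 * δ ≤ Dg δ r z t) ∧
    (∀ t, 4 * t ^ 2 * tz r z (t ^ 2) ≤ 1 * Dg δ r z t) ∧
    (∀ t, δ * t ^ 2 ≤ gg δ r z t) ∧
    (∀ t k, 1 * δ * k ^ 2 ≤ gg δ r z (t + k) + gg δ r z (t - k) - 2 * gg δ r z t) ∧
    ∃ L : ℝ, 0 ≤ L ∧ ∀ t k,
      Dg δ r z t * k ^ 2 - L * |k| ^ 3 ≤ gg δ r z (t + k) + gg δ r z (t - k) - 2 * gg δ r z t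

/-- The conditional expectation is a regular function. -/
def ST_XF : Prop :=
  ∀ (n : ℕ) (Y : Type) [Fintype Y] [DecidableEq Y] (s ζ δ : ℝ) (r z : Y → ℝ),
    MD s ζ δ r z → ∀ F : Finset (Fin n × Y) → ℝ,
    Continuous (EY δ r z F) ∧ (∀ i, Continuous fun y => -(2 * y i * cy δ r z F y i)) ∧
    ∃ C : ℝ, 0 ≤ C ∧ (∀ y, |EY δ r z F y| ≤ C) ∧
      (∀ i (y : Fin n → ℝ), |-(2 * y i * cy δ r z F y i)| ≤ C) ∧
      ∀ y k : Fin n → ℝ, |EY δ r z F (y + k) - EY δ r z F y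
        - ∑ i, -(2 * y i * cy δ r z F y i) * k i| ≤ C * ∑ i, k i ^ 2

/-- The bound of the gradient term. -/
def ST_BES : Prop :=
  ∀ (n : ℕ) (Y : Type) [Fintype Y] [DecidableEq Y] (s ζ δ : ℝ) (r z : Y → ℝ),
    MD s ζ δ r z → ∀ (F : Finset (Fin n × Y) → ℝ) (y : Fin n → ℝ),
    0 ≤ vy δ r z F y ∧
    ∑ i, (-(2 * y i * cy δ r z F y i)) ^ 2 / Dg δ r z (y i) ≤ 1 * vy δ r z F y

/-- The variance inequality. -/
def ST_VD : Prop :=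
  ∀ (n m : ℕ) (Y : Type) [Fintype Y] [DecidableEq Y] (s ζ δ : ℝ) (r z : Y → ℝ)
    (V : Matrix (Fin n) (Fin m) ℝ), MD s ζ δ r z → Function.Injective V.mulVec →
    ∀ F : Finset (Fin n × Y) → ℝ,
    MS V δ r z * (∑ η, W1 V δ r z η * F η ^ 2) - (∑ η, W1 V δ r z η * F η) ^ 2
      ≤ 2 * MS V δ r z * ∑ η, W1 V δ r z η * ∑ x ∈ ηᶜ,
          z x.2 * (1 + r x.2 * hh V (tau δ r η) x.1) ^ (-(1 / 2) : ℝ) * dd F η x ^ 2

/-- The integrated form of `H1`. -/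
def ST_H1I : Prop :=
  ∀ (Y : Type) [Fintype Y] (s ζ δ : ℝ) (r z : Y → ℝ), MD s ζ δ r z → ∀ h : ℝ, 0 ≤ h →
    h * ∑ y, z y * r y ^ 2 * (1 + r y * h) ^ (-(5 / 2) : ℝ)
      ≤ 2 / 9 * (δ + ∑ y, z y * r y * (1 + r y * h) ^ (-(7 / 2) : ℝ))

/-- The Dirichlet form of the trace. -/
def ST_DIR : Prop :=
  ∀ (n m : ℕ) (Y : Type) [Fintype Y] [DecidableEq Y] (s ζ δ : ℝ) (r z : Y → ℝ)
    (V Z : Matrix (Fin n) (Fin m) ℝ), MD s ζ δ r z → Function.Injective V.mulVec →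
    ∑ η : Finset (Fin n × Y), W1 V δ r z η * ∑ x ∈ ηᶜ,
        z x.2 * (1 + r x.2 * hh V (tau δ r η) x.1) ^ (-(1 / 2) : ℝ)
          * dd (fun η => Matrix.trace (BB V Z (tau δ r η))) η x ^ 2
      ≤ 2225 / 10000 * ∑ η : Finset (Fin n × Y), W1 V δ r z η * sgm V Z (tau δ r η)

/-- The variance of the trace. -/
def ST_VAR : Prop :=
  ∀ (n m : ℕ) (Y : Type) [Fintype Y] [DecidableEq Y] (s ζ δ : ℝ) (r z : Y → ℝ)
    (V Z : Matrix (Fin n) (Fin m) ℝ), MD s ζ δ r z → Function.Injective V.mulVec →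
    EX V δ r z (fun y => Matrix.trace (BB V Z y)) = 0 →
    EX V δ r z (fun y => Matrix.trace (BB V Z y) ^ 2)
      ≤ 445 / 1000 * EX V δ r z (fun y => sgm V Z y)

/-! ## B. Three replicas -/

/-- The representation of expectations by a probability measure. -/
def ST_PM : Prop :=
  ∀ (n m : ℕ) (Y : Type) [Fintype Y] [DecidableEq Y] (s ζ δ : ℝ) (r z : Y → ℝ)
    (V : Matrix (Fin n) (Fin m) ℝ), MD s ζ δ r z → Function.Injective V.mulVec →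
    ∃ P : Measure (Fin n → ℝ), IsProbabilityMeasure P ∧
      (∀ᵐ y ∂P, ∀ i, δ ≤ y i ∧ y i ≤ ld δ r z 0) ∧
      (∀ F : (Fin n → ℝ) → ℝ, ContinuousOn F (Og n) → MA (fun y => qf V y * F y) →
        ∫ y, F y ∂P = EX V δ r z F) ∧
      (∀ i, V i ≠ 0 → ∀ φ : ℝ → ℝ, ContinuousOn φ (Set.Ioi 0) →
        ∫ y, φ (y i) ∂P = ∫ t in Set.Ioi (0 : ℝ), φ (ld δ r z (t ^ 2)) * p3 V δ r z i t) ∧
      (∀ i, V i = 0 → ∀ᵐ y ∂P, y i = ld δ r z 0) ∧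
      (∀ F : (Fin n → ℝ) → ℝ, ContinuousOn F (Og n) → MA (fun y => qf V y * F y) →
        MS V δ r z * (EX V δ r z (fun y => F y ^ 2) - ∫ y, F y ^ 2 ∂P)
          ≤ ∑ η : Finset (Fin n × Y), W1 V δ r z η * ∑ x ∈ ηᶜ,
              z x.2 * (1 + r x.2 * hh V (tau δ r η) x.1) ^ (-(1 / 2) : ℝ)
                * dd (fun η => F (tau δ r η)) η x ^ 2)

/-! ## C. The new modules -/

/-- The weights of the configurations at fixed three replicas, `q i = |v_i · X| ^ 2`. -/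
noncomputable def wq {n m : ℕ} {Y : Type} [Fintype Y] [DecidableEq Y]
    (V : Matrix (Fin n) (Fin m) ℝ) (δ : ℝ) (r z : Y → ℝ) (q : Fin n → ℝ)
    (η : Finset (Fin n × Y)) : ℝ :=
  zw z η * Real.exp (-∑ i, tau δ r η i * q i) * qf V (tau δ r η)

/-- The Poincare inequality for the configurations at fixed three replicas. -/
def ST_DPO : Prop :=
  ∀ (n m : ℕ) (Y : Type) [Fintype Y] [DecidableEq Y] (δ : ℝ) (r z : Y → ℝ)
    (V : Matrix (Fin n) (Fin m) ℝ), 0 < δ → (∀ y, 0 < r y) → (∀ y, 0 < z y) →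
    Function.Injective V.mulVec → ∀ (q : Fin n → ℝ) (F : Finset (Fin n × Y) → ℝ),
    (∑ η, wq V δ r z q η) * (∑ η, wq V δ r z q η * F η ^ 2) - (∑ η, wq V δ r z q η * F η) ^ 2
      ≤ (∑ η, wq V δ r z q η) * ∑ η, wq V δ r z q η * ∑ x ∈ ηᶜ,
          z x.2 * Real.exp (-(r x.2 * q x.1)) * (1 + r x.2 * hh V (tau δ r η) x.1) * dd F η x ^ 2

/-- The marginals of mixtures of Gaussian measures. -/
def ST_MK : Prop :=
  ∀ (n m : ℕ) (Y : Type) [Fintype Y] [DecidableEq Y] (s ζ δ : ℝ) (r z : Y → ℝ)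
    (V : Matrix (Fin n) (Fin m) ℝ), MD s ζ δ r z → Function.Injective V.mulVec →
    ∀ i, V i ≠ 0 → ∀ c : Finset (Fin n × Y) → ℝ, (∀ η, 0 ≤ c η) →
    ∀ φ : ℝ → ℝ≥0∞, Measurable φ →
    ∫⁻ x : Fin m → ℝ, φ |V.mulVec x i| * ENNReal.ofReal (Zy δ r z c (V.mulVec x))
      = ENNReal.ofReal (2 * G0 m) * ∫⁻ t in Set.Ioi (0 : ℝ), φ t
          * ENNReal.ofReal (∑ η : Finset (Fin n × Y), W1 V δ r z η
            * (1 / √Real.pi * (hh V (tau δ r η) i) ^ (-(1 / 2) : ℝ)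
              * Real.exp (-(t ^ 2 / hh V (tau δ r η) i))) * c η)

/-- The lower bound of the second difference of the potential. -/
def ST_MQ : Prop :=
  ∀ (n m : ℕ) (Y : Type) [Fintype Y] [DecidableEq Y] (s ζ δ : ℝ) (r z : Y → ℝ)
    (V : Matrix (Fin n) (Fin m) ℝ), MD s ζ δ r z → Function.Injective V.mulVec →
    ∀ i, V i ≠ 0 → ∀ x : Fin m → ℝ,
    (Zy δ r z (fun _ : Finset (Fin n × Y) => 1) (V.mulVec x)
      = (∏ y, (1 + z y)) ^ n * Real.exp (-∑ j, gg δ r z (V.mulVec x j))) ∧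
    ∀ k : Fin m → ℝ,
    (V.mulVec k i) ^ 2 * Zy δ r z (fun η : Finset (Fin n × Y) => (hh V (tau δ r η) i)⁻¹)
        (V.mulVec x)
      ≤ Zy δ r z (fun _ : Finset (Fin n × Y) => 1) (V.mulVec x)
        * ∑ j, Dg δ r z (V.mulVec x j) * (V.mulVec k j) ^ 2

/-- Facts on the marginal densities. -/
def ST_FDP : Prop :=
  ∀ (n m : ℕ) (Y : Type) [Fintype Y] [DecidableEq Y] (s ζ δ : ℝ) (r z : Y → ℝ)
    (V : Matrix (Fin n) (Fin m) ℝ), MD s ζ δ r z → Function.Injective V.mulVec →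
    ∀ i, V i ≠ 0 →
    (∀ t, 0 < fd V δ r z i t) ∧ Continuous (fd V δ r z i) ∧
    (∀ t, 0 ≤ p3 V δ r z i t) ∧ Continuous (p3 V δ r z i) ∧ p3 V δ r z i 0 = 0 ∧
    (∀ t, 0 < t → HasDerivAt (fd V δ r z i) (-(p3 V δ r z i t / (2 * t))) t) ∧
    (∃ p' : ℝ → ℝ, ∀ t, HasDerivAt (p3 V δ r z i) (p' t) t) ∧
    IntegrableOn (fd V δ r z i) (Set.Ioi 0) ∧ (∫ t in Set.Ioi (0 : ℝ), fd V δ r z i t = 1 / 2) ∧
    (∫ t in Set.Ioi (0 : ℝ), p3 V δ r z i t = 1) ∧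
    (∀ q : ℝ, -1 ≤ q → IntegrableOn (fun t => t ^ q * p3 V δ r z i t) (Set.Ioi 0)) ∧
    (∀ q : ℝ, -1 < q → IntegrableOn (fun t => t ^ q * fd V δ r z i t) (Set.Ioi 0))

/-- The discrete second order inequality for the marginal density. -/
def ST_MDI : Prop :=
  ∀ (n m : ℕ) (Y : Type) [Fintype Y] [DecidableEq Y] (s ζ δ : ℝ) (r z : Y → ℝ)
    (V : Matrix (Fin n) (Fin m) ℝ), MD s ζ δ r z → Function.Injective V.mulVec →
    ∀ i, V i ≠ 0 → ∀ t θ : ℝ, 0 < t → 0 < θ → θ < 1 → ∃ e0 : ℝ, 0 < e0 ∧ ∀ e, 0 < e → e < e0 →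
      √(fd V δ r z i (t + e) * fd V δ r z i (t - e))
        ≤ fd V δ r z i t - θ / 2 * e ^ 2 * (p3 V δ r z i t / (4 * t ^ 2))

/-- The differential inequality and its integration. -/
def ST_MOD : Prop := ∀ f p : ℝ → ℝ,
  (∀ t, 0 ≤ t → 0 < f t) → ContinuousOn f (Set.Ici 0) → ContinuousOn p (Set.Ici 0) → p 0 = 0 →
  (∀ t, 0 < t → 0 ≤ p t) → (∀ t, 0 < t → HasDerivAt f (-(p t / (2 * t))) t) →
  (∃ p' : ℝ → ℝ, ∀ t, 0 < t → HasDerivAt p (p' t) t) →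
  (∀ t θ : ℝ, 0 < t → 0 < θ → θ < 1 → ∃ e0 : ℝ, 0 < e0 ∧ ∀ e, 0 < e → e < e0 →
    √(f (t + e) * f (t - e)) ≤ f t - θ / 2 * e ^ 2 * (p t / (4 * t ^ 2))) →
  ∀ t u : ℝ, 0 < t → t ≤ u →
    Real.log (f 0 / f t) * u ^ (3 / 2 : ℝ) ≤ Real.log (f 0 / f u) * t ^ (3 / 2 : ℝ)

/-- The exponent of the marginal density is star-shaped (convex) in `t ^ (3 / 2)`. -/
def ST_MCV : Prop :=
  ∀ (n m : ℕ) (Y : Type) [Fintype Y] [DecidableEq Y] (s ζ δ : ℝ) (r z : Y → ℝ)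
    (V : Matrix (Fin n) (Fin m) ℝ), MD s ζ δ r z → Function.Injective V.mulVec →
    ∀ i, V i ≠ 0 → (∀ t, 0 < fd V δ r z i t) ∧
      ∀ t u : ℝ, 0 < t → t ≤ u →
        Real.log (fd V δ r z i 0 / fd V δ r z i t) * u ^ (3 / 2 : ℝ)
          ≤ Real.log (fd V δ r z i 0 / fd V δ r z i u) * t ^ (3 / 2 : ℝ)

/-- The moments of a law whose exponent is star-shaped in `t ^ (3 / 2)`. -/
def ST_LAW0 : Prop := ∀ (f p R : ℝ → ℝ) (a b : ℝ),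
  (∀ t, 0 ≤ t → 0 < f t) → ContinuousOn f (Set.Ici 0) →
  (∀ t, 0 < t → HasDerivAt f (-(p t / (2 * t))) t) → (∀ t, 0 < t → 0 ≤ p t) →
  ContinuousOn p (Set.Ioi 0) →
  IntegrableOn f (Set.Ioi 0) → (∫ t in Set.Ioi (0:ℝ), f t = 1 / 2) →
  (∀ q : ℝ, -1 ≤ q → IntegrableOn (fun t => t ^ q * p t) (Set.Ioi 0)) →
  (∀ q : ℝ, -1 < q → IntegrableOn (fun t => t ^ q * f t) (Set.Ioi 0)) →
  (∀ t u, 0 < t → t ≤ u →
    Real.log (f 0 / f t) * u ^ (3 / 2 : ℝ) ≤ Real.log (f 0 / f u) * t ^ (3 / 2 : ℝ)) →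
  ContinuousOn R (Set.Ioi 0) → 0 < a → (∀ t, 0 < t → a ≤ R t ∧ R t ≤ b) →
  (∀ t u, 0 < t → t ≤ u → R u ≤ R t) →
  (∀ t u, 0 < t → t ≤ u → t ^ (1 / 2 : ℝ) * R t ≤ u ^ (1 / 2 : ℝ) * R u) →
  2 * (∫ t in Set.Ioi (0 : ℝ), R t ^ 2 * p t) * (∫ t in Set.Ioi (0 : ℝ), ((R t)⁻¹) ^ 2 * p t) + 6
    - 8 * (∫ t in Set.Ioi (0 : ℝ), R t * p t) * (∫ t in Set.Ioi (0 : ℝ), (R t)⁻¹ * p t)
    ≤ 6 - 16 / 3 * (Real.Gamma (4 / 3) / Real.Gamma (5 / 3) ^ 2)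

/-- Numerical value (the true value is 1.0957). -/
def ST_GAM3 : Prop := 108 / 100 ≤ Real.Gamma (4 / 3) / Real.Gamma (5 / 3) ^ 2

/-- The bound on the moments of the marginals. -/
def ST_LAW1 : Prop :=
  ∀ (n m : ℕ) (Y : Type) [Fintype Y] [DecidableEq Y] (s ζ δ : ℝ) (r z : Y → ℝ)
    (V : Matrix (Fin n) (Fin m) ℝ), MD s ζ δ r z → Function.Injective V.mulVec →
    ∀ i, V i ≠ 0 →
    2 * (∫ t in Set.Ioi (0 : ℝ), ld δ r z (t ^ 2) ^ 2 * p3 V δ r z i t)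
        * (∫ t in Set.Ioi (0 : ℝ), ((ld δ r z (t ^ 2))⁻¹) ^ 2 * p3 V δ r z i t) + 6
      - 8 * (∫ t in Set.Ioi (0 : ℝ), ld δ r z (t ^ 2) * p3 V δ r z i t)
        * (∫ t in Set.Ioi (0 : ℝ), (ld δ r z (t ^ 2))⁻¹ * p3 V δ r z i t) ≤ (49 / 100) ^ 2

/-- The representation of expectations with the bounds on the marginals. -/
def ST_ROW : Prop :=
  ∀ (n m : ℕ) (Y : Type) [Fintype Y] [DecidableEq Y] (s ζ δ : ℝ) (r z : Y → ℝ)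
    (V : Matrix (Fin n) (Fin m) ℝ), MD s ζ δ r z → Function.Injective V.mulVec →
    ∃ P : Measure (Fin n → ℝ), IsProbabilityMeasure P ∧
      (∀ᵐ y ∂P, ∀ i, δ ≤ y i ∧ y i ≤ ld δ r z 0) ∧
      (∀ F : (Fin n → ℝ) → ℝ, ContinuousOn F (Og n) → MA (fun y => qf V y * F y) →
        ∫ y, F y ∂P = EX V δ r z F) ∧
      (∀ F : (Fin n → ℝ) → ℝ, ContinuousOn F (Og n) → MA (fun y => qf V y * F y) →
        MS V δ r z * (EX V δ r z (fun y => F y ^ 2) - ∫ y, F y ^ 2 ∂P)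
          ≤ ∑ η : Finset (Fin n × Y), W1 V δ r z η * ∑ x ∈ ηᶜ,
              z x.2 * (1 + r x.2 * hh V (tau δ r η) x.1) ^ (-(1 / 2) : ℝ)
                * dd (fun η => F (tau δ r η)) η x ^ 2) ∧
      ∀ i, 2 * (∫ y, (y i) ^ 2 ∂P) * (∫ y, ((y i)⁻¹) ^ 2 ∂P) + 6
        - 8 * (∫ y, y i ∂P) * (∫ y, (y i)⁻¹ ∂P) ≤ (49 / 100) ^ 2

/-- The two point inequality. -/
def ST_TWO : Prop :=
  ∀ (n m : ℕ) (P : Measure (Fin n → ℝ)) [IsProbabilityMeasure P] (a b J : ℝ)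
    (V Z : Matrix (Fin n) (Fin m) ℝ), 0 < a → 0 ≤ J →
    (∀ᵐ y ∂P, ∀ i, a ≤ y i ∧ y i ≤ b) → Function.Injective V.mulVec →
    (∀ i, 2 * (∫ y, y i ^ 2 ∂P) * (∫ y, ((y i)⁻¹) ^ 2 ∂P) + 6
        - 8 * (∫ y, y i ∂P) * (∫ y, (y i)⁻¹ ∂P) ≤ J ^ 2) →
    (∀ i j, ∫ y, BB V Z y i j ∂P = 0) →
    ∫ y, Matrix.trace (BB V Z y * BB V Z y) ∂P ≤ J / 2 * ∫ y, sgm V Z y ∂P

/-! ## D. The rest -/

/-- The local inequality. -/
def ST_LOC : Prop :=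
  ∀ (n m : ℕ) (Y : Type) [Fintype Y] [DecidableEq Y] (s ζ δ : ℝ) (r z : Y → ℝ)
    (V Z : Matrix (Fin n) (Fin m) ℝ), MD s ζ δ r z → Function.Injective V.mulVec →
    (∀ a b, EX V δ r z (fun y => BB V Z y a b) = 0) → Z ≠ 0 → M2 V Z δ r z < 0

/-- Derivatives of `MS`. -/
def ST_DMS : Prop :=
  ∀ (n m : ℕ) (Y : Type) [Fintype Y] [DecidableEq Y] (s ζ δ : ℝ) (r z : Y → ℝ)
    (V Z : Matrix (Fin n) (Fin m) ℝ), MD s ζ δ r z → Function.Injective V.mulVec →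
    HasDerivAt (fun t : ℝ => MS (V + t • Z) δ r z) (M1 V Z δ r z) 0 ∧
    HasDerivAt (fun t : ℝ => M1 (V + t • Z) Z δ r z) (M2 V Z δ r z) 0

/-- Continuity in the matrices. -/
def ST_CTJ : Prop :=
  ∀ (n m : ℕ) (Y : Type) [Fintype Y] [DecidableEq Y] (s ζ δ : ℝ) (r z : Y → ℝ),
    MD s ζ δ r z →
    IsOpen {V : Matrix (Fin n) (Fin m) ℝ | Function.Injective V.mulVec} ∧
    ContinuousOn (fun V : Matrix (Fin n) (Fin m) ℝ => MS V δ r z)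
      {V | Function.Injective V.mulVec} ∧
    ContinuousOn (fun p : Matrix (Fin n) (Fin m) ℝ × Matrix (Fin n) (Fin m) ℝ =>
      M1 p.1 p.2 δ r z) {p | Function.Injective p.1.mulVec} ∧
    ContinuousOn (fun p : Matrix (Fin n) (Fin m) ℝ × Matrix (Fin n) (Fin m) ℝ =>
      M2 p.1 p.2 δ r z) {p | Function.Injective p.1.mulVec}

/-- The projection. -/
def ST_BPV : Prop :=
  ∀ (n m : ℕ) (Y : Type) [Fintype Y] [DecidableEq Y] (s ζ δ : ℝ) (r z : Y → ℝ)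
    (V : Matrix (Fin n) (Fin m) ℝ), MD s ζ δ r z → Function.Injective V.mulVec →
    0 < MS V δ r z ∧ Bp V δ r z * V = 1 ∧ ∀ Z : Matrix (Fin n) (Fin m) ℝ,
    (∀ a b, EX V δ r z (fun y => BB V Z y a b) = (Bp V δ r z * Z) a b) ∧
    M1 V Z δ r z = -(MS V δ r z * Matrix.trace (Bp V δ r z * Z)) ∧
    M2 V Z δ r z = MS V δ r z * EX V δ r z (fun y => Matrix.trace (BB V Z y) ^ 2
      + Matrix.trace (BB V Z y * BB V Z y) - sgm V Z y)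

/-- The critical points on the affine space. -/
def ST_CRT : Prop :=
  ∀ (n m : ℕ) (Y : Type) [Fintype Y] [DecidableEq Y] (s ζ δ : ℝ) (r z : Y → ℝ)
    (W : Matrix (Fin n) (Fin m) ℝ) (B : Matrix (Fin m) (Fin n) ℝ), MD s ζ δ r z →
    B * W = 1 → (∀ Z : Matrix (Fin n) (Fin m) ℝ, B * Z = 0 → M1 W Z δ r z = 0) →
    Bp W δ r z = B

/-- Noncritical points. -/
def ST_GSP : Prop :=
  ∀ (n m : ℕ) (Y : Type) [Fintype Y] [DecidableEq Y] (s ζ δ : ℝ) (r z : Y → ℝ)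
    (V : Matrix (Fin n) (Fin m) ℝ) (B : Matrix (Fin m) (Fin n) ℝ), MD s ζ δ r z →
    B * V = 1 → ∀ w : KB B, (∃ e : KB B, M1 (V + Matrix.of (w : Fin n → Fin m → ℝ))
      (Matrix.of (e : Fin n → Fin m → ℝ)) δ r z ≠ 0) → SLP (GB B V δ r z) w

/-- Critical points with negative second derivative. -/
def ST_GSM : Prop :=
  ∀ (n m : ℕ) (Y : Type) [Fintype Y] [DecidableEq Y] (s ζ δ : ℝ) (r z : Y → ℝ)
    (V : Matrix (Fin n) (Fin m) ℝ) (B : Matrix (Fin m) (Fin n) ℝ), MD s ζ δ r z →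
    B * V = 1 → ∀ w : KB B, (∀ e : KB B, M1 (V + Matrix.of (w : Fin n → Fin m → ℝ))
      (Matrix.of (e : Fin n → Fin m → ℝ)) δ r z = 0) →
    (∀ e : KB B, e ≠ 0 → M2 (V + Matrix.of (w : Fin n → Fin m → ℝ))
      (Matrix.of (e : Fin n → Fin m → ℝ)) δ r z < 0) → SLM (GB B V δ r z) w

/-- Compactness of the superlevel sets. -/
def ST_CMP : Prop :=
  ∀ (n m : ℕ) (Y : Type) [Fintype Y] [DecidableEq Y] (s ζ δ : ℝ) (r z : Y → ℝ)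
    (V : Matrix (Fin n) (Fin m) ℝ) (B : Matrix (Fin m) (Fin n) ℝ), MD s ζ δ r z →
    B * V = 1 → Continuous (GB B V δ r z) ∧ (∀ w, 0 < GB B V δ r z w) ∧
    ∀ c : ℝ, 0 < c → IsCompact {w | c ≤ GB B V δ r z w}

/-- The volume decreasing projection. -/
def ST_KER : Prop :=
  ∀ (n m : ℕ) (Y : Type) [Fintype Y] [DecidableEq Y] (s ζ δ : ℝ) (r z : Y → ℝ)
    (V : Matrix (Fin n) (Fin m) ℝ), MD s ζ δ r z → Function.Injective V.mulVec →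
    ∃ B : Matrix (Fin m) (Fin n) ℝ, B * V = 1 ∧ ∀ W : Matrix (Fin n) (Fin m) ℝ,
      |(B * W).det| * MS W δ r z ≤ MS V δ r z

/-- The face inequality for the finite model. -/
def ST_FIS : Prop :=
  ∀ (m n : ℕ) (Y : Type) [Fintype Y] [DecidableEq Y] (s ζ δ : ℝ) (r z : Y → ℝ),
    MD s ζ δ r z → FI m n (lam δ r z)

/-- The face inequality for the stable exponent. -/
def ST_FST : Prop :=
  ∀ (m n : ℕ) (p : ℝ), 3 / 2 ≤ p → p < 2 → FI m n (fun u => u ^ (p / 2))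

/-- The main theorem. -/
def ST_MAIN : Prop :=
  ∀ (m n K : ℕ) (p : ℝ), 3 / 2 ≤ p → p < 2 →
    ∀ [Fact (1 ≤ ENNReal.ofReal p)] (F : Fin K → Face (m + 1) n) (θ : Fin K → ℤ),
    (∀ j, θ j ≠ 0) → IsCycle F θ → ∀ i,
      μH[(m : ℝ) + 1] ((F i).carrier (ENNReal.ofReal p))
        ≤ ∑ j ∈ univ.erase i, μH[(m : ℝ) + 1] ((F j).carrier (ENNReal.ofReal p))

end Pool.Agent.Helper75.GR
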